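import Pool.Agent.N151.LF.Cert

/-!
Consequences of the coset enumerations: facts about involutions and elements of order 3 in a group
whose elements have order a power of 2 or a power of 3, if `(t x)³ = 1` or `[t, x]³ = 1` for all
involutions `t` and all elements `x` of order 3.
-/

namespace Pool.Agent.N151.LG

open LF

section

variable {G : Type*} [Group G]

/-- every element has order a power of 2 or a power of 3 -/
def Ord (G : Type*) [Group G] : Prop :=
  ∀ g : G, (∃ j : ℕ, g ^ (3 ^ j) = 1) ∨ ∃ k : ℕ, g ^ (2 ^ k) = 1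

theorem one_of_coprime {a : G} {m n : ℕ} (hm : a ^ m = 1) (hn : a ^ n = 1)
    (h : Nat.Coprime m n) : a = 1 := by
  have h1 := orderOf_dvd_of_pow_eq_one hm
  have h2 := orderOf_dvd_of_pow_eq_one hn
  have h3 : orderOf a ∣ 1 := by
    have := Nat.dvd_gcd h1 h2
    rwa [Nat.Coprime.gcd_eq_one h] at this
  exact orderOf_eq_one_iff.mp (Nat.dvd_one.mp h3)

theorem cop2_9 (k j : ℕ) : Nat.Coprime (2 ^ k) (3 ^ j) := by
  apply Nat.Coprime.pow_left; apply Nat.Coprime.pow_right; decide

theorem cop2_3 (k : ℕ) : Nat.Coprime (2 ^ k) 3 := by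
  apply Nat.Coprime.pow_left; decide

/-- a 2-element and a 3-element that commute: one of them is trivial -/
theorem Ord.comm (hO : Ord G) {a b : G} {k j : ℕ} (hab : Commute a b) (ha : a ^ (2 ^ k) = 1)
    (hb : b ^ (3 ^ j) = 1) : a = 1 ∨ b = 1 := by
  rcases hO (a * b) with ⟨i, h⟩ | ⟨m, h⟩
  · left
    rw [hab.mul_pow] at h
    have h1 : (a ^ 3 ^ i * b ^ 3 ^ i) ^ 3 ^ j = 1 := by rw [h, one_pow]
    rw [(hab.pow_pow _ _).mul_pow, ← pow_mul b, mul_comm (3 ^ i) (3 ^ j), pow_mul b, hb, one_pow,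
      mul_one, ← pow_mul, ← pow_add] at h1
    exact one_of_coprime ha h1 (cop2_9 k _)
  · right
    rw [hab.mul_pow] at h
    have h1 : (a ^ 2 ^ m * b ^ 2 ^ m) ^ 2 ^ k = 1 := by rw [h, one_pow]
    rw [(hab.pow_pow _ _).mul_pow, ← pow_mul, mul_comm (2 ^ m) (2 ^ k), pow_mul a, ha, one_pow,
      one_mul, ← pow_mul, ← pow_add] at h1
    exact one_of_coprime h1 hb (cop2_9 _ _)

theorem pow9_of_cube {b : G} (hb : b ^ 3 = 1) : b ^ 3 ^ 1 = 1 := by
  rw [pow_one]; exact hb

theorem cube_of_six {b : G} {j : ℕ} (h6 : b ^ 6 = 1) (h : b ^ 3 ^ j = 1) : b ^ 3 = 1 := by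
  have h1 : (b ^ 3) ^ 2 ^ 1 = 1 := by rw [← pow_mul]; exact h6
  have h2 : (b ^ 3) ^ 3 ^ j = 1 := by rw [← pow_mul, mul_comm, pow_mul, h, one_pow]
  exact one_of_coprime h1 h2 (cop2_9 1 j)

/-- an involution and an element of order 3 do not commute -/
theorem Ord.comm' (hO : Ord G) {a b : G} (hab : a * b = b * a) (ha : a * a = 1)
    (hb : b ^ 3 = 1) : a = 1 ∨ b = 1 :=
  hO.comm (k := 1) hab (by rw [pow_one, sq, ha]) (pow9_of_cube hb)

theorem one_of_sq_cube {a : G} (h2 : a * a = 1) (h3 : a ^ 3 = 1) : a = 1 := by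
  rw [pow_three, h2, mul_one] at h3; exact h3

variable {s p x r : G}

theorem lw0 : lw (gn s p x r) 0 = s := by simp [lw, gn]
theorem lw1 : lw (gn s p x r) 1 = p := by simp [lw, gn]
theorem lw2 : lw (gn s p x r) 2 = x := by simp [lw, gn]
theorem lw3 : lw (gn s p x r) 3 = x⁻¹ := by simp [lw, gn]
theorem lw4 : lw (gn s p x r) 4 = r := by simp [lw, gn]
theorem lw5 : lw (gn s p x r) 5 = r⁻¹ := by simp [lw, gn]

theorem cube_comm' {a b : G} (h : (a * b) ^ 3 = 1) : (b * a) ^ 3 = 1 := cube_comm h

/-- `q` of order 3 and an involution `t` with `(t q)³ = 1`: the same for `q⁻¹ t q` -/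
theorem cube_conj {t q : G} (h : (t * q) ^ 3 = 1) : (q⁻¹ * t * q * q) ^ 3 = 1 := by
  have : (q⁻¹ * t * q * q) ^ 3 = q⁻¹ * (t * q) ^ 3 * q := by
    simp only [pow_succ, pow_zero]; group
  rw [this, h]; group

theorem cube_conj' {t q : G} (h : (t * q) ^ 3 = 1) : (q * t * q⁻¹ * q) ^ 3 = 1 := by
  have : (q * t * q⁻¹ * q) ^ 3 = q * (t * q) ^ 3 * q⁻¹ := by
    simp only [pow_succ, pow_zero]; group
  rw [this, h]; group

theorem inv_conj {t q : G} (h : t * t = 1) : (q⁻¹ * t * q) * (q⁻¹ * t * q) = 1 := by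
  have : (q⁻¹ * t * q) * (q⁻¹ * t * q) = q⁻¹ * (t * t) * q := by group
  rw [this, h]; group

theorem inv_conj' {t q : G} (h : t * t = 1) : (q * t * q⁻¹) * (q * t * q⁻¹) = 1 := by
  have : (q * t * q⁻¹) * (q * t * q⁻¹) = q * (t * t) * q⁻¹ := by group
  rw [this, h]; group

theorem bc0 (hF : HF G) {s t q : G} (hs : s * s = 1) (ht : t * t = 1) (hq : q ^ 3 = 1)
    (h1 : (s * q) ^ 3 = 1) (h2 : (t * q) ^ 3 = 1)
    (h3 : (t * s * t * q⁻¹ * (t * s * t) * q) ^ 3 = 1) : s = 1 := by
  obtain ⟨g, hg, hg2⟩ := sound (gen := gn s t q 1) hF (gn_HI hs ht) (gn_HC hq (one_pow 3))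
    (er := erBC) (sq := sqBC) (goals := goBC)
    (by
      intro w hw
      simp only [erBC, List.mem_cons, List.not_mem_nil, or_false] at hw
      subst hw
      simp only [ew_cons, ew_nil, lw2]
      rw [mul_one, ← pow_three]; exact hq)
    (by
      intro w hw
      simp only [sqBC, List.mem_cons, List.not_mem_nil, or_false] at hw
      rcases hw with rfl | rfl <;> simp only [ew_cons, ew_nil, lw0, lw1, mul_one]
      · exact hs
      · exact ht) okBC
    (by
      intro w hw
      simp only [List.mem_cons, List.not_mem_nil, or_false] at hw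
      rcases hw with rfl | rfl | rfl | rfl <;>
        simp only [ew_cons, ew_nil, lw0, lw1, lw2, lw3, mul_one]
      · exact hq
      · exact h1
      · exact h2
      · simpa only [mul_assoc] using h3)
  simp only [goBC, List.mem_cons, List.not_mem_nil, or_false] at hg
  subst hg
  simpa only [ew_cons, ew_nil, lw0, mul_one] using hg2

/-- (B) is closed under conjugation -/
theorem bc (hF : HF G) {s t q : G} (hs : s * s = 1) (ht : t * t = 1) (hq : q ^ 3 = 1)
    (h1 : (s * q) ^ 3 = 1) (h2 : (t * q) ^ 3 = 1) : (t * s * t * q) ^ 3 = 1 := by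
  have h4 : (t * s * t) * (t * s * t) = 1 := by
    calc (t * s * t) * (t * s * t) = t * s * (t * t) * s * t := by group
      _ = t * (s * s) * t := by rw [ht]; group
      _ = 1 := by rw [hs, mul_one, ht]
  rcases hF _ _ h4 hq with h5 | h5
  · exact h5
  · have h6 := bc0 hF hs ht hq h1 h2 h5
    rw [h6, mul_one, ht, one_mul, hq]

/-- (B) is closed under products -/
theorem bd (hF : HF G) {s t q : G} (hs : s * s = 1) (ht : t * t = 1) (hq : q ^ 3 = 1)
    (h1 : (s * q) ^ 3 = 1) (h2 : (t * q) ^ 3 = 1) : (s * t * q) ^ 3 = 1 := by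
  obtain ⟨g, hg, hg2⟩ := sound (gen := gn s t q 1) hF (gn_HI hs ht) (gn_HC hq (one_pow 3))
    (er := erBD) (sq := sqBD) (goals := goBD)
    (by
      intro w hw
      simp only [erBD, List.mem_cons, List.not_mem_nil, or_false] at hw
      subst hw
      simp only [ew_cons, ew_nil, lw2]
      rw [mul_one, ← pow_three]; exact hq)
    (by
      intro w hw
      simp only [sqBD, List.mem_cons, List.not_mem_nil, or_false] at hw
      rcases hw with rfl | rfl <;> simp only [ew_cons, ew_nil, lw0, lw1, mul_one]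
      · exact hs
      · exact ht) okBD
    (by
      intro w hw
      simp only [List.mem_cons, List.not_mem_nil, or_false] at hw
      rcases hw with rfl | rfl | rfl | rfl | rfl | rfl | rfl | rfl | rfl <;>
        simp only [ew_cons, ew_nil, lw0, lw1, lw2, lw3, mul_one]
      · exact hq
      · exact h1
      · exact h2
      · simpa only [mul_assoc] using bc hF hs ht hq h1 h2
      · simpa only [mul_assoc] using bc hF hs (inv_conj (q := q) ht) hq h1 (cube_conj h2)
      · simpa only [mul_assoc] using bc hF hs (inv_conj' (q := q) ht) hq h1 (cube_conj' h2)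
      · simpa only [mul_assoc] using bc hF ht hs hq h2 h1
      · simpa only [mul_assoc] using bc hF ht (inv_conj (q := q) hs) hq h2 (cube_conj h1)
      · simpa only [mul_assoc] using bc hF ht (inv_conj' (q := q) hs) hq h2 (cube_conj' h1))
  simp only [goBD, List.mem_cons, List.not_mem_nil, or_false] at hg
  subst hg
  simp only [ew_cons, ew_nil, lw0, lw1, lw2, mul_one] at hg2
  refine Eq.trans ?_ hg2
  simp only [pow_succ, pow_zero]; group

/-- `s (x s x⁻¹) (x⁻¹ s x) = 1` -/
theorem klein {s x : G} (hx : x ^ 3 = 1) (hsx : (s * x) ^ 3 = 1) :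
    s * (x * s * x⁻¹) * (x⁻¹ * s * x) = 1 := by
  have h1 : x⁻¹ * x⁻¹ = x := by
    have : x⁻¹ * x⁻¹ = (x ^ 3)⁻¹ * x := by group
    rw [this, hx]; group
  calc s * (x * s * x⁻¹) * (x⁻¹ * s * x) = s * x * s * (x⁻¹ * x⁻¹) * s * x := by group
    _ = s * x * s * x * s * x := by rw [h1]
    _ = (s * x) ^ 3 := by simp only [pow_succ, pow_zero]; group
    _ = 1 := hsx

theorem inv_self {s : G} (hs : s * s = 1) : s⁻¹ = s := inv_eq_of_mul_eq_one_left hs

/-- `x s x⁻¹ = s (x⁻¹ s x)` -/
theorem klein2 {s x : G} (hs : s * s = 1) (hx : x ^ 3 = 1) (hsx : (s * x) ^ 3 = 1) :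
    x * s * x⁻¹ = s * (x⁻¹ * s * x) := by
  have h1 := klein hx hsx
  have h2 : (x⁻¹ * s * x) * (x⁻¹ * s * x) = 1 := inv_conj hs
  calc x * s * x⁻¹ = (s * s) * (x * s * x⁻¹) * ((x⁻¹ * s * x) * (x⁻¹ * s * x)) := by
        rw [hs, h2]; group
    _ = s * (s * (x * s * x⁻¹) * (x⁻¹ * s * x)) * (x⁻¹ * s * x) := by group
    _ = s * (x⁻¹ * s * x) := by rw [h1, mul_one]

theorem klein_comm {s x : G} (hs : s * s = 1) (hx : x ^ 3 = 1) (hsx : (s * x) ^ 3 = 1) :
    s * (x⁻¹ * s * x) = (x⁻¹ * s * x) * s := by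
  have h1 := klein2 hs hx hsx
  have h2 : (x * s * x⁻¹) * (x * s * x⁻¹) = 1 := inv_conj' hs
  have h3 : (x⁻¹ * s * x) * (x⁻¹ * s * x) = 1 := inv_conj hs
  have h4 := inv_self h2
  rw [h1, mul_inv_rev, inv_self h3, inv_self hs] at h4
  exact h4.symm

theorem cube_inv {x : G} (hx : x ^ 3 = 1) : x⁻¹ ^ 3 = 1 := by rw [inv_pow, hx, inv_one]

theorem cube_sinv {s x : G} (hs : s * s = 1) (hsx : (s * x) ^ 3 = 1) : (s * x⁻¹) ^ 3 = 1 := by
  have h1 : (x⁻¹ * s) ^ 3 = 1 := by
    have : x⁻¹ * s = (s * x)⁻¹ := by rw [mul_inv_rev, inv_self hs]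
    rw [this, cube_inv hsx]
  exact cube_comm h1

/-- the core of (U) -/
theorem ucore (hF : HF G) {s x r : G} (hs : s * s = 1) (hx : x ^ 3 = 1) (hr : r ^ 3 = 1)
    (hsx : (s * x) ^ 3 = 1) (hsr : s * r * (s * r) = 1) (hpr : (x⁻¹ * s * x * r) ^ 3 = 1) :
    s = 1 := by
  set b : G := r⁻¹ * (x⁻¹ * s * x) * r with hb
  have hbb : b * b = 1 := inv_conj (inv_conj hs)
  have herU : ∀ w ∈ erUA, ew (gn s 1 x r) w = 1 := by
    intro w hw
    simp only [erUA, List.mem_cons, List.not_mem_nil, or_false] at hw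
    rcases hw with rfl | rfl | rfl <;> simp only [ew_cons, ew_nil, lw0, lw2, lw4]
    · rw [mul_one, ← pow_three]; exact hx
    · rw [mul_one, ← pow_three]; exact hr
    · refine Eq.trans ?_ hsr; group
  have hsqU : ∀ w ∈ sqUA, ew (gn s 1 x r) w * ew (gn s 1 x r) w = 1 := by
    intro w hw
    simp only [sqUA, List.mem_cons, List.not_mem_nil, or_false] at hw
    subst hw
    simp only [ew_cons, ew_nil, lw0, mul_one]
    exact hs
  have hgo : (∃ g ∈ goUA, ew (gn s 1 x r) g = 1) → s = 1 := by
    rintro ⟨g, hg, hg2⟩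
    simp only [goUA, List.mem_cons, List.not_mem_nil, or_false] at hg
    subst hg
    simpa only [ew_cons, ew_nil, lw0, mul_one] using hg2
  have hI := gn_HI (s := s) (p := 1) (x := x) (r := r) hs (one_mul 1)
  have hC := gn_HC (s := s) (p := 1) hx hr
  rcases hF b x hbb hx with h1 | h1
  · apply hgo
    apply sound hF hI hC herU hsqU okUA
    intro w hw
    simp only [List.mem_cons, List.not_mem_nil, or_false] at hw
    rcases hw with rfl | rfl | rfl | rfl | rfl <;>
      simp only [ew_cons, ew_nil, lw0, lw1, lw2, lw3, lw4, lw5, mul_one]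
    · exact hx
    · exact hr
    · exact hsx
    · simpa only [mul_assoc] using hpr
    · simpa only [mul_assoc, hb] using h1
  set y : G := b * x⁻¹ * b * x with hy
  have hyi : y⁻¹ = x⁻¹ * b * x * b := by
    rw [hy]; simp only [mul_inv_rev, inv_inv, inv_self hbb]; group
  rcases hF s y hs h1 with h2 | h2
  swap
  · apply hgo
    apply sound hF hI hC herU hsqU okUB
    intro w hw
    simp only [List.mem_cons, List.not_mem_nil, or_false] at hw
    rcases hw with rfl | rfl | rfl | rfl | rfl | rfl <;>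
      simp only [ew_cons, ew_nil, lw0, lw1, lw2, lw3, lw4, lw5, mul_one]
    · exact hx
    · exact hr
    · exact hsx
    · simpa only [mul_assoc] using hpr
    · simpa only [mul_assoc, hy, hb] using h1
    · rw [hyi, hy, hb] at h2
      simpa only [mul_assoc] using h2
  rcases hF (x⁻¹ * s * x) y (inv_conj hs) h1 with h3 | h3
  swap
  · apply hgo
    apply sound hF hI hC herU hsqU okUC
    intro w hw
    simp only [List.mem_cons, List.not_mem_nil, or_false] at hw
    rcases hw with rfl | rfl | rfl | rfl | rfl | rfl <;>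
      simp only [ew_cons, ew_nil, lw0, lw1, lw2, lw3, lw4, lw5, mul_one]
    · exact hx
    · exact hr
    · exact hsx
    · simpa only [mul_assoc] using hpr
    · simpa only [mul_assoc, hy, hb] using h1
    · rw [hyi, hy, hb] at h3
      simpa only [mul_assoc] using h3
  -- the last case
  set p : G := x⁻¹ * s * x with hp
  have hpp : p * p = 1 := inv_conj hs
  have hsp : s * p = p * s := klein_comm hs hx hsx
  have hby : b * y * (b * y) = 1 := by
    calc b * y * (b * y) = (b * b) * (x⁻¹ * b * x * (b * b) * x⁻¹ * b * x) := by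
          rw [hy]; group
      _ = x⁻¹ * b * x * x⁻¹ * b * x := by rw [hbb, mul_one, one_mul]
      _ = x⁻¹ * (b * b) * x := by group
      _ = 1 := by rw [hbb]; group
  obtain ⟨g, hg, hg2⟩ := sound (gen := gn s p y r) hF (gn_HI hs hpp) (gn_HC h1 hr)
    (er := erUD) (sq := sqUD) (goals := goUD)
    (by
      intro w hw
      simp only [erUD, List.mem_cons, List.not_mem_nil, or_false] at hw
      rcases hw with rfl | rfl | rfl | rfl | rfl <;>
        simp only [ew_cons, ew_nil, lw0, lw1, lw2, lw4, lw5, mul_one]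
      · rw [← pow_three]; exact h1
      · rw [← pow_three]; exact hr
      · have : s * (p * (s * p)) = s * (p * s) * p := by group
        rw [this, ← hsp]
        calc s * (s * p) * p = (s * s) * (p * p) := by group
          _ = 1 := by rw [hs, hpp, one_mul]
      · refine Eq.trans ?_ hsr; group
      · refine Eq.trans ?_ hby; rw [hb]; group)
    (by
      intro w hw
      simp only [sqUD, List.mem_cons, List.not_mem_nil, or_false] at hw
      rcases hw with rfl | rfl <;> simp only [ew_cons, ew_nil, lw0, lw1, mul_one]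
      · exact hs
      · exact hpp) okUD
    (by
      intro w hw
      simp only [List.mem_cons, List.not_mem_nil, or_false] at hw
      rcases hw with rfl | rfl | rfl | rfl | rfl | rfl | rfl | rfl | rfl | rfl <;>
        simp only [ew_cons, ew_nil, lw0, lw1, lw2, lw3, lw4, lw5, mul_one]
      · exact h1
      · exact hr
      · exact hpr
      · exact h2
      · exact h3
      · simpa only [mul_assoc] using bd hF hs hpp h1 h2 h3
      · simpa only [mul_assoc] using bc hF hs (inv_conj (q := y) hpp) h1 h2 (cube_conj h3)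
      · simpa only [mul_assoc] using bc hF hs (inv_conj' (q := y) hpp) h1 h2 (cube_conj' h3)
      · simpa only [mul_assoc] using bc hF hpp (inv_conj (q := y) hs) h1 h3 (cube_conj h2)
      · simpa only [mul_assoc] using bc hF hpp (inv_conj' (q := y) hs) h1 h3 (cube_conj' h2))
  simp only [goUD, List.mem_cons, List.not_mem_nil, or_false] at hg
  subst hg
  simpa only [ew_cons, ew_nil, lw0, mul_one] using hg2

/-- `(s r)³ = 1` and `[s, r]³ = 1` imply that `s` and `r` commute -/
theorem ab_comm {s r : G} (hs : s * s = 1) (hr : r ^ 3 = 1) (h1 : (s * r) ^ 3 = 1)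
    (h2 : (s * r⁻¹ * s * r) ^ 3 = 1) : s * r = r * s := by
  have h3 := klein_comm hs hr h1
  have h4 : (s * r⁻¹ * s * r) * (s * r⁻¹ * s * r) = 1 := by
    calc (s * r⁻¹ * s * r) * (s * r⁻¹ * s * r) = (s * (r⁻¹ * s * r)) * (s * (r⁻¹ * s * r)) := by
          group
      _ = (s * (r⁻¹ * s * r)) * ((r⁻¹ * s * r) * s) := by rw [← h3]
      _ = s * ((r⁻¹ * s * r) * (r⁻¹ * s * r)) * s := by group
      _ = 1 := by rw [inv_conj hs, mul_one, hs]
  have h5 := one_of_sq_cube h4 h2
  have h6 : r⁻¹ * s * r = s := by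
    calc r⁻¹ * s * r = s * (s * r⁻¹ * s * r) := by
          rw [show s * (s * r⁻¹ * s * r) = (s * s) * (r⁻¹ * s * r) by group, hs, one_mul]
      _ = s := by rw [h5, mul_one]
  calc s * r = r * (r⁻¹ * s * r) := by group
    _ = r * s := by rw [h6]

/-- **(U)**: an involution `s` with `(s x)³ = 1` for an element `x` of order 3 does not invert an
element of order 3 -/
theorem U (hO : Ord G) (hF : HF G) {s x r : G} (hs : s * s = 1) (hx : x ^ 3 = 1) (hr : r ^ 3 = 1)
    (hsx : (s * x) ^ 3 = 1) (hsr : s * r * (s * r) = 1) : s = 1 ∨ r = 1 := by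
  have hp : (x⁻¹ * s * x) * (x⁻¹ * s * x) = 1 := inv_conj hs
  have hq : (x * s * x⁻¹) * (x * s * x⁻¹) = 1 := inv_conj' hs
  rcases hF _ r hp hr with h1 | h1
  · exact Or.inl (ucore hF hs hx hr hsx hsr h1)
  rcases hF _ r hq hr with h2 | h2
  · have h3 : (x⁻¹⁻¹ * s * x⁻¹ * r) ^ 3 = 1 := by rw [inv_inv]; exact h2
    exact Or.inl (ucore hF hs (cube_inv hx) hr (cube_sinv hs hsx) hsr h3)
  set p : G := x⁻¹ * s * x with hpd
  have hsp : s * p = p * s := klein_comm hs hx hsx
  have hsr2 : s * r⁻¹ * s = r := by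
    have : s * r * s = r⁻¹ := by
      rw [eq_inv_iff_mul_eq_one]
      calc s * r * s * r = s * r * (s * r) := by group
        _ = 1 := hsr
    calc s * r⁻¹ * s = s * (s * r * s) * s := by rw [this]
      _ = (s * s) * r * (s * s) := by group
      _ = r := by rw [hs]; group
  have h3 : ((p * r) * (p * r)) ^ 3 = 1 := by
    rw [klein2 hs hx hsx] at h2
    have : p * r * (p * r) = s * p * r⁻¹ * (s * p) * r := by
      calc p * r * (p * r) = p * (s * r⁻¹ * s) * (p * r) := by rw [hsr2]
        _ = (p * s) * r⁻¹ * (s * p) * r := by group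
        _ = s * p * r⁻¹ * (s * p) * r := by rw [hsp]
    rw [this]; exact h2
  have h6 : (p * r) ^ 6 = 1 := by
    refine Eq.trans ?_ h3
    simp only [pow_succ, pow_zero]; group
  have hpx : p = 1 → s = 1 := by
    intro h
    have : s = x * p * x⁻¹ := by rw [hpd]; group
    rw [this, h]; group
  rcases hO (p * r) with ⟨j, h9⟩ | ⟨k, h9⟩
  · -- cube
    have h7 : (p * r) ^ 3 = 1 := cube_of_six h6 h9
    rcases hO.comm' (ab_comm hp hr h7 h1) hp hr with h8 | h8
    · exact Or.inl (hpx h8)
    · exact Or.inr h8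
  · -- square
    have h7 : ((p * r) ^ 2) = 1 := by
      have h8 : ((p * r) ^ 2) ^ 3 = 1 := by rw [← pow_mul]; exact h6
      have h10 : ((p * r) ^ 2) ^ (2 ^ k) = 1 := by rw [← pow_mul, mul_comm, pow_mul, h9, one_pow]
      exact one_of_coprime h10 h8 (cop2_3 k)
    have h8 : p * r * p = r⁻¹ := by
      rw [eq_inv_iff_mul_eq_one]
      refine Eq.trans ?_ h7
      rw [sq]; group
    have h10 : (s * p) * r = r * (s * p) := by
      have h11 : s * r⁻¹ * s⁻¹ = r := by rw [inv_self hs]; exact hsr2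
      have h12 : (s * p) * r * (s * p)⁻¹ = r := by
        calc (s * p) * r * (s * p)⁻¹ = s * (p * r * p⁻¹) * s⁻¹ := by group
          _ = r := by rw [inv_self hp, h8, h11]
      calc (s * p) * r = ((s * p) * r * (s * p)⁻¹) * (s * p) := by group
        _ = r * (s * p) := by rw [h12]
    have h11 : s * p * (s * p) = 1 := by
      calc s * p * (s * p) = s * p * (p * s) := by rw [hsp]
        _ = s * (p * p) * s := by group
        _ = 1 := by rw [hp, mul_one, hs]
    rcases hO.comm' h10 h11 hr with h12 | h12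
    · left
      have h13 : p = s := by
        calc p = (s * s) * p := by rw [hs, one_mul]
          _ = s * (s * p) := by group
          _ = s := by rw [h12, mul_one]
      have h14 : s * x = x * s := by
        calc s * x = x * p := by rw [hpd]; group
          _ = x * s := by rw [h13]
      rcases hO.comm' h14 hs hx with h15 | h15
      · exact h15
      · rw [h15, mul_one] at hsx
        exact one_of_sq_cube hs hsx
    · exact Or.inr h12

end

end Pool.Agent.N151.LG
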