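import Pool.Agent.N151.LG.Solv
import Pool.Agent.H32BU.TWED
import Pool.Agent.H32BU.TTRZ
import Pool.Agent.H32BU.TINTG
import Pool.Agent.H32BU.TNRM
import Pool.Agent.H32BU.TCEN
import Pool.Agent.H32BU.TTRI
import Pool.Agent.H32BU.TPPC
import Pool.Agent.H32BU.TBUR
import Pool.Agent.H32BU.TCRD

/-!
Finite and soluble subgroups generated by an involution and an element of order 3.
-/

universe u

namespace Pool.Agent.N151.LG

open Subgroup LF

theorem Ord.sub {G : Type*} [Group G] (hO : Ord G) (H : Subgroup G) : Ord H := by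
  intro g
  rcases hO g.1 with ⟨k, h⟩ | ⟨k, h⟩
  · left; exact ⟨k, Subtype.ext h⟩
  · right; exact ⟨k, Subtype.ext h⟩

/-- Burnside's theorem for finite groups of any universe -/
theorem solvable_of_finite {H : Type u} [Group H] [Finite H] (hO : Ord H) :
    Group.IsSolvable H := by
  have h1 : ∀ x : H, ∃ k : ℕ, x ^ (2 ^ k * 3 ^ k) = 1 := by
    intro x
    rcases hO x with ⟨k, h⟩ | ⟨k, h⟩
    · exact ⟨k, by rw [mul_comm, pow_mul, h, one_pow]⟩
    · exact ⟨k, by rw [pow_mul, h, one_pow]⟩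
  choose f hf using h1
  obtain ⟨K, hK⟩ := (Set.finite_range f).bddAbove
  have h2 : ∀ x : H, x ^ (2 ^ K * 3 ^ K) = 1 := by
    intro x
    have h3 : f x ≤ K := hK (Set.mem_range_self x)
    obtain ⟨d, hd⟩ := Nat.exists_eq_add_of_le h3
    rw [hd, pow_add, pow_add, show 2 ^ f x * 2 ^ d * (3 ^ f x * 3 ^ d) =
      (2 ^ f x * 3 ^ f x) * (2 ^ d * 3 ^ d) by ring, pow_mul, hf, one_pow]
  let e : Shrink.{0} H ≃* H := Shrink.mulEquiv
  have : Finite (Shrink.{0} H) := Finite.of_equiv _ e.symm.toEquiv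
  have h3 : ∀ x : Shrink.{0} H, x ^ (2 ^ K * 3 ^ K) = 1 := by
    intro x
    apply e.injective
    rw [map_pow, map_one, h2]
  have hPPC := Pool.Agent.H32BU.t_PPC Pool.Agent.H32BU.t_WED Pool.Agent.H32BU.t_TRZ
    Pool.Agent.H32BU.t_INTG (Pool.Agent.H32BU.t_NRM Pool.Agent.H32BU.t_INTG)
    Pool.Agent.H32BU.t_CEN Pool.Agent.H32BU.t_TRI
  obtain ⟨c, d, hcd⟩ := Pool.Agent.H32BU.t_CRD (Shrink.{0} H) 2 3 K K Nat.prime_two
    Nat.prime_three h3
  have h4 : Group.IsSolvable (Shrink.{0} H) := Pool.Agent.H32BU.t_BUR hPPC (Shrink.{0} H) 2 3 c d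
    Nat.prime_two Nat.prime_three hcd
  exact Group.isSolvable_of_surjective (f := e.toMonoidHom) e.surjective

/-- if the subgroups generated by an involution and an element of order 3 are soluble, then the
group satisfies `HF` -/
theorem hf_of_solvable {G : Type u} [Group G] (hO : Ord G)
    (h : ∀ t x : G, t * t = 1 → x ^ 3 = 1 → Group.IsSolvable (closure {t, x} : Subgroup G)) :
    HF G := by
  intro t x ht hx
  obtain ⟨n, hn⟩ := (Group.isSolvable_def _).mp (h t x ht hx)
  have htm : t ∈ closure ({t, x} : Set G) := subset_closure (by simp)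
  have hxm : x ∈ closure ({t, x} : Set G) := subset_closure (by simp)
  have h1 := hf_solv n _ hn (hO.sub _) ⟨t, htm⟩ ⟨x, hxm⟩ (Subtype.ext ht) (Subtype.ext hx)
  rcases h1 with h1 | h1
  · left; exact congrArg Subtype.val h1
  · right; exact congrArg Subtype.val h1

theorem hf_of_finite {G : Type u} [Group G] (hO : Ord G)
    (h : ∀ t x : G, t * t = 1 → x ^ 3 = 1 → Finite (closure {t, x} : Subgroup G)) : HF G := by
  refine hf_of_solvable hO ?_
  intro t x ht hx
  have := h t x ht hx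
  exact solvable_of_finite (hO.sub _)

end Pool.Agent.N151.LG
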