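import Pool.Agent.N151.LG.TwoFin

/-!
2-groups with a single involution, which acts as `-1` in characteristic 3, are locally finite.
-/

universe u

namespace Pool.Agent.N151.LG

open Subgroup LF

section

variable {P : Type u} [Group P]

/-- a 2-group with the single involution `z` -/
structure FH (z : P) : Prop where
  two : ∀ g : P, ∃ k : ℕ, g ^ 2 ^ k = 1
  zz : z * z = 1
  z1 : z ≠ 1
  inv : ∀ g : P, g * g = 1 → g = 1 ∨ g = z

/-- no elements `u`, `v` of order 8 with `u²`, `v²` anticommuting -/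
def NoA (z : P) : Prop :=
  ∀ u v : P, u ^ 4 = z → v ^ 4 = z → u * u * (v * v) = v * v * (u * u)⁻¹ → False

variable {z : P} (H : FH z)

include H

theorem FH.zc (g : P) : g * z = z * g := by
  have h1 : (g * z * g⁻¹) * (g * z * g⁻¹) = 1 := inv_conj' H.zz
  rcases H.inv _ h1 with h | h
  · exfalso
    apply H.z1
    rw [mul_inv_eq_one] at h
    simpa using h
  · rw [mul_inv_eq_iff_eq_mul] at h; exact h

theorem FH.exists_pow {g : P} (hg : g ≠ 1) : ∃ n : ℕ, g ^ 2 ^ n = z := by
  classical
  have hk := Nat.find_spec (H.two g)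
  have hmin := fun m => Nat.find_min (H.two g) (m := m)
  set k := Nat.find (H.two g)
  rcases k with _ | k
  · simp at hk; exact absurd hk hg
  · refine ⟨k, ?_⟩
    have h1 : g ^ 2 ^ k * g ^ 2 ^ k = 1 := by
      rw [← pow_add, ← two_mul, ← pow_succ']; exact hk
    rcases H.inv _ h1 with h | h
    · exact absurd h (hmin k (by omega))
    · exact h

theorem FH.half {g : P} (hg : g ≠ 1) (hz : g ≠ z) : ∃ n : ℕ, g ^ n * g ^ n = z := by
  obtain ⟨n, hn⟩ := H.exists_pow hg
  rcases n with _ | n
  · simp at hn; exact absurd hn hz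
  · exact ⟨2 ^ n, by rw [← pow_add, ← two_mul, ← pow_succ']; exact hn⟩

theorem FH.quarter {g : P} (hg : g ≠ 1) (hz : g ≠ z) (hz2 : g * g ≠ z) :
    ∃ n : ℕ, (g ^ n) ^ 4 = z := by
  obtain ⟨n, hn⟩ := H.exists_pow hg
  rcases n with _ | _ | n
  · simp at hn; exact absurd hn hz
  · simp at hn; rw [sq] at hn; exact absurd hn hz2
  · refine ⟨2 ^ n, ?_⟩
    rw [← pow_mul, ← hn]
    congr 1
    rw [pow_succ, pow_succ]; ring

theorem FH.S {p q c : P} (hc : c * c = z) (hp : Commute p c) (hq : Commute q c)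
    (hpq : p * p = q * q) : p = q ∨ p = z * q := by
  by_cases h1 : p * q⁻¹ = 1
  · left; exact mul_inv_eq_one.mp h1
  by_cases h2 : p * q⁻¹ = z
  · right; exact mul_inv_eq_iff_eq_mul.mp h2
  exfalso
  obtain ⟨n, hn⟩ := H.half h1 h2
  set h := (p * q⁻¹) ^ n with hh
  have hhc : Commute h c := (hp.mul_left hq.inv_left).pow_left n
  have h3 : (c * h) * (c * h) = 1 := by
    calc (c * h) * (c * h) = c * (h * c) * h := by group
      _ = c * (c * h) * h := by rw [hhc.eq]
      _ = (c * c) * (h * h) := by group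
      _ = 1 := by rw [hc, hn, H.zz]
  have h4 : Commute p h := by
    rcases H.inv _ h3 with h5 | h5
    · have : h = c⁻¹ := (inv_eq_of_mul_eq_one_right h5).symm
      rw [this]; exact hp.inv_right
    · have : h = c⁻¹ * z := by rw [← h5]; group
      rw [this]; exact hp.inv_right.mul_right (H.zc p)
  have h5 : p⁻¹ * (p * q⁻¹) * p = (p * q⁻¹)⁻¹ := by
    have : p⁻¹ * (p * q⁻¹) * p = q⁻¹ * (p * p) * p⁻¹ := by group
    rw [this, hpq]; group
  have h6 : p⁻¹ * h * p = h⁻¹ := by
    rw [hh, ← inv_pow, ← h5]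
    have := conj_pow (a := p⁻¹) (b := p * q⁻¹) (i := n)
    rw [inv_inv] at this
    exact this.symm
  have h7 : h⁻¹ = h := by
    rw [← h6, mul_assoc, ← h4.eq]; group
  apply H.z1
  rw [← hn]
  nth_rewrite 1 [← h7]
  group

theorem FH.inv_eq {c : P} (hc : c * c = z) : c⁻¹ = z * c := by
  rw [inv_eq_iff_mul_eq_one]
  calc c * (z * c) = (c * z) * c := by group
    _ = z * (c * c) := by rw [H.zc]; group
    _ = 1 := by rw [hc, H.zz]

theorem FH.A0 {u v : P} (hu : u ^ 4 = z) (hv : v ^ 4 = z)
    (h : u * u * (v * v) = v * v * (u * u)⁻¹) : u * (v * v) = v * v * u⁻¹ := by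
  have hc : (u * u) * (u * u) = z := by rw [← hu]; simp only [pow_succ, pow_zero]; group
  have he : (v * v) * (v * v) = z := by rw [← hv]; simp only [pow_succ, pow_zero]; group
  have h1 : ((v * v)⁻¹ * u * (v * v)) * ((v * v)⁻¹ * u * (v * v)) = u⁻¹ * u⁻¹ := by
    have : ((v * v)⁻¹ * u * (v * v)) * ((v * v)⁻¹ * u * (v * v)) = (v * v)⁻¹ * (u * u * (v * v)) := by
      group
    rw [this, h]; group
  have hfc : Commute ((v * v)⁻¹ * u * (v * v)) (u * u) := by
    have h2 : u * u = (((v * v)⁻¹ * u * (v * v)) * ((v * v)⁻¹ * u * (v * v)))⁻¹ := by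
      rw [h1, ← mul_inv_rev, inv_inv]
    rw [h2]
    exact ((Commute.refl _).mul_right (Commute.refl _)).inv_right
  have huc : Commute u⁻¹ (u * u) := ((Commute.refl u).mul_right (Commute.refl u)).inv_left
  rcases H.S hc hfc huc h1 with h2 | h2
  · rw [← h2]; group
  · exfalso
    have h3 : ((v * v) * u) * ((v * v) * u) = 1 := by
      have gen : ∀ e u : P, (e * u) * (e * u) = e * e * (e⁻¹ * u * e) * u := by
        intro e u; group
      calc ((v * v) * u) * ((v * v) * u) = (v * v) * (v * v) * ((v * v)⁻¹ * u * (v * v)) * u :=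
            gen _ _
        _ = 1 := by
            rw [h2, he]
            calc z * (z * u⁻¹) * u = z * z := by group
              _ = 1 := H.zz
    have h4 : Commute u (v * v) := by
      rcases H.inv _ h3 with h5 | h5
      · have : u = (v * v)⁻¹ := (inv_eq_of_mul_eq_one_right h5).symm
        rw [this]; exact (Commute.refl _).inv_left
      · have : u = (v * v)⁻¹ * z := by rw [← h5]; group
        rw [this]
        exact (Commute.refl (v * v)).inv_left.mul_left (H.zc _).symm
    have h5 : Commute (u * u) (v * v) := h4.mul_left h4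
    rw [h5.eq] at h
    have h6 := mul_left_cancel h
    have h7 : (u * u) * (u * u) = 1 := by
      nth_rewrite 1 [h6]; group
    apply H.z1
    rw [← hc, h7]

/-- elements of the centralizer of an element of order 4 -/
theorem FH.cyc {c : P} (hc : c * c = z) (n : ℕ) : ∀ f g : P, Commute f c → Commute g c →
    f ^ 2 ^ (n + 1) = 1 → g ^ 2 ^ n ≠ 1 → ∃ k : ℕ, f = g ^ k := by
  induction n with
  | zero =>
    intro f g _ _ hf hg
    have hf' : f * f = 1 := by simpa [sq] using hf
    have hg' : g ≠ 1 := by simpa using hg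
    rcases H.inv f hf' with h | h
    · exact ⟨0, by rw [h, pow_zero]⟩
    · obtain ⟨m, hm⟩ := H.exists_pow hg'
      exact ⟨2 ^ m, by rw [h, hm]⟩
  | succ n ih =>
    intro f g hfc hgc hf hg
    have hg' : g ≠ 1 := by
      rintro rfl; exact hg (one_pow _)
    obtain ⟨k, hk⟩ := ih (f * f) (g * g) (hfc.mul_left hfc) (hgc.mul_left hgc)
      (by rw [← sq, ← pow_mul, ← pow_succ']; exact hf)
      (by rw [← sq, ← pow_mul, ← pow_succ']; exact hg)
    have h1 : f * f = g ^ k * g ^ k := by
      rw [hk, ← pow_add, ← sq, ← pow_mul]; congr 1; ring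
    rcases H.S hc hfc (hgc.pow_left k) h1 with h | h
    · exact ⟨k, h⟩
    · obtain ⟨m, hm⟩ := H.exists_pow hg'
      exact ⟨2 ^ m + k, by rw [h, pow_add, hm]⟩

theorem FH.comm {c : P} (hc : c * c = z) {f g : P} (hf : Commute f c) (hg : Commute g c) :
    Commute f g := by
  classical
  have hk1 := Nat.find_spec (H.two f)
  have hm1 := fun m => Nat.find_min (H.two f) (m := m)
  have hk2 := Nat.find_spec (H.two g)
  have hm2 := fun m => Nat.find_min (H.two g) (m := m)
  set a := Nat.find (H.two f)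
  set b := Nat.find (H.two g)
  rcases a with _ | a
  · simp at hk1; rw [hk1]; exact Commute.one_left _
  rcases b with _ | b
  · simp at hk2; rw [hk2]; exact Commute.one_right _
  rcases le_total a b with hab | hab
  · obtain ⟨k, hk⟩ := H.cyc hc b f g hf hg (by
      obtain ⟨d, rfl⟩ := Nat.exists_eq_add_of_le hab
      rw [show a + d + 1 = (a + 1) + d by ring, pow_add 2 (a + 1), pow_mul, hk1, one_pow])
      (hm2 b (by omega))
    rw [hk]; exact (Commute.refl g).pow_left k
  · obtain ⟨k, hk⟩ := H.cyc hc a g f hg hf (by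
      obtain ⟨d, rfl⟩ := Nat.exists_eq_add_of_le hab
      rw [show b + d + 1 = (b + 1) + d by ring, pow_add 2 (b + 1), pow_mul, hk2, one_pow])
      (hm1 a (by omega))
    rw [hk]; exact (Commute.refl f).pow_right k

theorem FH.conj_c (hA : NoA z) {u : P} (hu : u ^ 4 = z) (g : P) :
    g⁻¹ * (u * u) * g = u * u ∨ g⁻¹ * (u * u) * g = (u * u)⁻¹ := by
  set c := u * u with hc
  have hcc : c * c = z := by rw [← hu, hc]; simp only [pow_succ, pow_zero]; group
  set v := g⁻¹ * u * g with hv
  have hvv : v * v = g⁻¹ * c * g := by rw [hv, hc]; group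
  have hv4 : v ^ 4 = z := by
    have := conj_pow (a := g⁻¹) (b := u) (i := 4)
    rw [inv_inv] at this
    rw [hv, this, hu, mul_assoc, ← H.zc]; group
  set e := v * v with he
  rw [← hvv]
  have hee : e * e = z := by rw [← hv4, he]; simp only [pow_succ, pow_zero]; group
  have hci := H.inv_eq hcc
  have hei := H.inv_eq hee
  by_cases h1 : c * e = 1
  · right; exact (inv_eq_of_mul_eq_one_right h1).symm
  by_cases h2 : c * e = z
  · left
    have : e = c⁻¹ * z := by rw [← h2]; group
    rw [this, hci]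
    calc z * c * z = z * (c * z) := by group
      _ = z * (z * c) := by rw [H.zc]
      _ = (z * z) * c := by group
      _ = c := by rw [H.zz, one_mul]
  exfalso
  -- `c` inverts `w = c e`
  have h3 : c * (c * e) * c⁻¹ = (c * e)⁻¹ := by
    rw [mul_inv_rev c e, hci, hei]
    calc c * (c * e) * (z * c) = (c * c) * (e * z) * c := by group
      _ = z * (z * e) * c := by rw [hcc, H.zc e]
      _ = z * e * (z * c) := by
          rw [mul_assoc z e (z * c), ← mul_assoc e z c, H.zc e]; group
  by_cases h4 : (c * e) * (c * e) = z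
  · refine hA u v hu hv4 ?_
    show c * e = e * c⁻¹
    have h5 := H.inv_eq h4
    rw [h5] at h3
    have h6 : c * e * c⁻¹ = z * e := by
      have : c * (c * e) * c⁻¹ = c * (c * e * c⁻¹) := by group
      rw [this, ← mul_assoc z c e, ← H.zc c, mul_assoc c z e] at h3
      exact mul_left_cancel h3
    rw [mul_inv_eq_iff_eq_mul] at h6
    rw [h6, hci, ← mul_assoc e z c, H.zc e]
  · obtain ⟨n, hn⟩ := H.quarter h1 h2 h4
    refine hA ((c * e) ^ n) u hn hu ?_
    show (c * e) ^ n * (c * e) ^ n * c = c * ((c * e) ^ n * (c * e) ^ n)⁻¹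
    set w := c * e
    have h5 : c * w ^ n * c⁻¹ = (w ^ n)⁻¹ := by
      rw [← conj_pow, h3, inv_pow]
    have h6 : c * (w ^ n * w ^ n) * c⁻¹ = (w ^ n * w ^ n)⁻¹ := by
      calc c * (w ^ n * w ^ n) * c⁻¹ = (c * w ^ n * c⁻¹) * (c * w ^ n * c⁻¹) := by group
        _ = (w ^ n * w ^ n)⁻¹ := by rw [h5]; group
    have gen : ∀ c x : P, c * x * c⁻¹ = x⁻¹ → x * c = c * x⁻¹ := by
      intro c x h
      have : x = c * x⁻¹ * c⁻¹ := by
        calc x = (x⁻¹)⁻¹ := by group
          _ = (c * x * c⁻¹)⁻¹ := by rw [h]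
          _ = c * x⁻¹ * c⁻¹ := by group
      calc x * c = c * x⁻¹ * c⁻¹ * c := by rw [← this]
        _ = c * x⁻¹ := by group
    exact gen _ _ h6

/-- **a 2-group with a single involution and no anticommuting squares of elements of order 8 is
locally finite** -/
theorem FH.lf (hA : NoA z) : LFin (⊤ : Subgroup P) := by
  by_cases hu : ∃ u : P, u ^ 4 = z
  · obtain ⟨u, hu⟩ := hu
    have hcc : (u * u) * (u * u) = z := by rw [← hu]; simp only [pow_succ, pow_zero]; group
    have hC : LFin (centralizer {u * u} : Subgroup P) := by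
      intro F hF hFG
      have hcomm : ∀ a b : F, a * b = b * a := by
        intro a b
        apply Subtype.ext
        have ha := mem_centralizer_singleton_iff.mp (hF a.2)
        have hb := mem_centralizer_singleton_iff.mp (hF b.2)
        exact H.comm hcc ha hb
      let _ : CommGroup F := { (inferInstance : Group F) with mul_comm := hcomm }
      have : Group.FG F := (Group.fg_iff_subgroup_fg F).mpr hFG
      refine CommGroup.finite_of_fg_isMulTorsion F ?_
      intro f
      obtain ⟨k, hk⟩ := H.two f.1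
      refine isOfFinOrder_iff_pow_eq_one.mpr ⟨2 ^ k, by positivity, ?_⟩
      apply Subtype.ext
      exact hk
    refine hC.two ?_
    intro g h hg hh
    have key : ∀ g : P, g ∉ (centralizer {u * u} : Subgroup P) →
        g⁻¹ * (u * u) * g = (u * u)⁻¹ := by
      intro g hg
      rcases H.conj_c hA hu g with h1 | h1
      · exfalso
        apply hg
        rw [mem_centralizer_singleton_iff]
        calc g * (u * u) = g * (g⁻¹ * (u * u) * g) := by rw [h1]
          _ = u * u * g := by group
      · exact h1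
    have h1 := key g hg
    have h2 := key h hh
    rw [mem_centralizer_singleton_iff]
    have h3 : h * (u * u) * h⁻¹ = (u * u)⁻¹ := by
      have : h * (h⁻¹ * (u * u) * h)⁻¹ * h⁻¹ = (u * u)⁻¹ := by group
      rw [h2, inv_inv] at this
      exact this
    have h4 : g⁻¹ * (u * u)⁻¹ * g = u * u := by
      have : g⁻¹ * (u * u)⁻¹ * g = (g⁻¹ * (u * u) * g)⁻¹ := by group
      rw [this, h1, inv_inv]
    calc g⁻¹ * h * (u * u) = (g⁻¹ * (h * (u * u) * h⁻¹) * g) * (g⁻¹ * h) := by group
      _ = u * u * (g⁻¹ * h) := by rw [h3, h4]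
  · intro F _ hF
    have hfg : Group.FG F := (Group.fg_iff_subgroup_fg F).mpr hF
    refine H15.Struct.finite_exp4 hfg ?_
    intro f
    apply Subtype.ext
    show f.1 ^ 4 = 1
    have h0 : f.1 ^ 4 = (f.1 * f.1) * (f.1 * f.1) := by simp only [pow_succ, pow_zero]; group
    by_cases h1 : f.1 = 1
    · rw [h1, one_pow]
    by_cases h2 : f.1 = z
    · rw [h0, h2, H.zz, one_mul]
    by_cases h3 : f.1 * f.1 = z
    · rw [h0, h3, H.zz]
    · obtain ⟨n, hn⟩ := H.quarter h1 h2 h3
      exact absurd ⟨_, hn⟩ hu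

end

end Pool.Agent.N151.LG
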