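import Pool.Agent.N151.LG.Free

/-!
The ring argument in characteristic 3.
-/

universe u

namespace Pool.Agent.N151.LG

open Subgroup LF

section ring3

variable {R : Type*} [Ring R]

theorem quat_sq {c e : R} (hc : c * c = -1) (he : e * e = -1) (hec : e * c = -(c * e)) :
    ((1 + c) * (1 + e)) * ((1 + c) * (1 + e)) =
      ((1 + c) * (1 + e)) + ((1 + c) * (1 + e)) - (1 + 1 + 1 + 1) := by
  have hc2 : ∀ x : R, c * (c * x) = -x := by intro x; rw [← mul_assoc, hc, neg_one_mul]
  have he2 : ∀ x : R, e * (e * x) = -x := by intro x; rw [← mul_assoc, he, neg_one_mul]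
  have hec2 : ∀ x : R, e * (c * x) = -(c * (e * x)) := by
    intro x; rw [← mul_assoc, hec, neg_mul, mul_assoc]
  simp only [mul_add, add_mul, mul_one, one_mul, mul_assoc, hc, he, hec, hc2, he2, hec2, mul_neg,
    neg_neg]
  noncomm_ring

theorem quat_cube (h3 : (3 : R) = 0) {c e : R} (hc : c * c = -1) (he : e * e = -1)
    (hec : e * c = -(c * e)) :
    ((1 + c) * (1 + e)) * ((1 + c) * (1 + e)) * ((1 + c) * (1 + e)) = 1 := by
  have h1 := quat_sq hc he hec
  set h := (1 + c) * (1 + e)
  have t : (1 : R) + 1 + 1 = 0 := by rw [← h3]; norm_num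
  rw [h1, sub_mul, add_mul, h1]
  have : h + h - (1 + 1 + 1 + 1) + (h + h - (1 + 1 + 1 + 1)) - (1 + 1 + 1 + 1) * h =
      (1 + 1 + 1) * (-(1 + 1 + 1)) + 1 := by noncomm_ring
  rw [this, t, zero_mul, zero_add]

end ring3

section

variable {P : Type u} [Group P] {z : P} {R : Type*} [Ring R]

theorem noA_of_ring (H : FH z) (h3 : (3 : R) = 0) (h1 : (1 : R) ≠ 0) (ρ : P →* R)
    (hz : ρ z = -1) : NoA z := by
  intro u v hu hv huv
  have hA1 := H.A0 hu hv huv
  have huu : (u * u) * (u * u) = z := by rw [← hu]; simp only [pow_succ, pow_zero]; group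
  have hvv : (v * v) * (v * v) = z := by rw [← hv]; simp only [pow_succ, pow_zero]; group
  have hvu : v * v * (u * u) = u * u * (v * v)⁻¹ := by
    -- `c e = e c⁻¹` gives `e c = c e⁻¹`
    have e1 := H.inv_eq huu
    have e2 := H.inv_eq hvv
    rw [e2]
    rw [e1] at huv
    calc v * v * (u * u) = (z * z) * (v * v * (u * u)) := by rw [H.zz, one_mul]
      _ = z * ((z * (v * v)) * (u * u)) := by group
      _ = z * (((v * v) * z) * (u * u)) := by rw [H.zc (v * v)]
      _ = z * (v * v * (z * (u * u))) := by group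
      _ = z * (u * u * (v * v)) := by rw [← huv]
      _ = (z * (u * u)) * (v * v) := by group
      _ = ((u * u) * z) * (v * v) := by rw [H.zc (u * u)]
      _ = u * u * (z * (v * v)) := by group
  have hA2 := H.A0 hv hu hvu
  set U := ρ u with hU
  set Ui := ρ u⁻¹ with hUi
  set V := ρ v with hV
  set Vi := ρ v⁻¹ with hVi
  have c1 : U * Ui = 1 := by rw [hU, hUi, ← map_mul, mul_inv_cancel, map_one]
  have c2 : Ui * U = 1 := by rw [hU, hUi, ← map_mul, inv_mul_cancel, map_one]
  have d1 : V * Vi = 1 := by rw [hV, hVi, ← map_mul, mul_inv_cancel, map_one]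
  have d2 : Vi * V = 1 := by rw [hV, hVi, ← map_mul, inv_mul_cancel, map_one]
  obtain ⟨c, hc⟩ : ∃ c, c = U * U := ⟨_, rfl⟩
  obtain ⟨e, he⟩ : ∃ e, e = V * V := ⟨_, rfl⟩
  have hcc : c * c = -1 := by rw [hc, hU, ← map_mul, ← map_mul, huu, hz]
  have hee : e * e = -1 := by rw [he, hV, ← map_mul, ← map_mul, hvv, hz]
  have hUic : Ui = -(c * U) := by
    have : u⁻¹ = z * ((u * u) * u) := by
      rw [inv_eq_iff_mul_eq_one]
      calc u * (z * (u * u * u)) = (u * z) * (u * u * u) := by group
        _ = z * (u * (u * u * u)) := by rw [H.zc]; group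
        _ = z * z := by
            congr 1
            rw [← hu]; simp only [pow_succ, pow_zero]; group
        _ = 1 := H.zz
    rw [hUi, this, map_mul, hz, map_mul, map_mul, ← hU, ← hc, neg_one_mul]
  have hVie : Vi = -(e * V) := by
    have : v⁻¹ = z * ((v * v) * v) := by
      rw [inv_eq_iff_mul_eq_one]
      calc v * (z * (v * v * v)) = (v * z) * (v * v * v) := by group
        _ = z * (v * (v * v * v)) := by rw [H.zc]; group
        _ = z * z := by
            congr 1
            rw [← hv]; simp only [pow_succ, pow_zero]; group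
        _ = 1 := H.zz
    rw [hVi, this, map_mul, hz, map_mul, map_mul, ← hV, ← he, neg_one_mul]
  have hec : e * c = -(c * e) := by
    have e1 := H.inv_eq huu
    rw [e1] at huv
    have h5 := congrArg ρ huv
    simp only [map_mul, hz] at h5
    rw [← hU, ← hV, ← hc, ← he] at h5
    rw [h5]; simp
  have a1 : U * e = e * Ui := by
    have h5 := congrArg ρ hA1
    simp only [map_mul] at h5
    rw [← hU, ← hUi, ← hV, ← he] at h5
    exact h5
  have a2 : Ui * e = e * U := by
    calc Ui * e = Ui * (e * Ui) * U := by rw [mul_assoc Ui, mul_assoc e, c2, mul_one]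
      _ = Ui * (U * e) * U := by rw [a1]
      _ = e * U := by rw [← mul_assoc Ui, c2, one_mul]
  have b1 : V * c = c * Vi := by
    have h5 := congrArg ρ hA2
    simp only [map_mul] at h5
    rw [← hU, ← hVi, ← hV, ← hc] at h5
    exact h5
  have b2 : Vi * c = c * V := by
    calc Vi * c = Vi * (c * Vi) * V := by rw [mul_assoc Vi, mul_assoc c, d2, mul_one]
      _ = Vi * (V * c) * V := by rw [b1]
      _ = c * V := by rw [← mul_assoc Vi, d2, one_mul]
  obtain ⟨α, hα⟩ : ∃ α, α = U + Ui := ⟨_, rfl⟩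
  obtain ⟨β, hβ⟩ : ∃ β, β = V + Vi := ⟨_, rfl⟩
  have cα : Commute c α := by
    show c * α = α * c
    have e1 : U * c = c * U := by rw [hc, mul_assoc]
    have e2 : Ui * c = c * Ui := by
      rw [hc, ← mul_assoc, c2, one_mul, mul_assoc, c1, mul_one]
    rw [hα, mul_add, add_mul, e1, e2]
  have eα : Commute e α := by
    show e * α = α * e
    rw [hα, mul_add, add_mul, a1, a2, add_comm]
  have eβ : Commute e β := by
    show e * β = β * e
    have e1 : V * e = e * V := by rw [he, mul_assoc]
    have e2 : Vi * e = e * Vi := by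
      rw [he, ← mul_assoc, d2, one_mul, mul_assoc, d1, mul_one]
    rw [hβ, mul_add, add_mul, e1, e2]
  have cβ : Commute c β := by
    show c * β = β * c
    rw [hβ, mul_add, add_mul, b1, b2, add_comm]
  have t3 : (1 : R) + 1 + 1 = 0 := by rw [← h3]; norm_num
  have hUα : U = -((1 + c) * α) := by
    rw [hα, hUic]
    have : -((1 + c) * (U + -(c * U))) = c * c * U - U := by noncomm_ring
    rw [this, hcc]
    have : -1 * U - U = U - (1 + 1 + 1) * U := by noncomm_ring
    rw [this, t3]; simp
  have hVβ : V = -((1 + e) * β) := by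
    rw [hβ, hVie]
    have : -((1 + e) * (V + -(e * V))) = e * e * V - V := by noncomm_ring
    rw [this, hee]
    have : -1 * V - V = V - (1 + 1 + 1) * V := by noncomm_ring
    rw [this, t3]; simp
  obtain ⟨h, hh⟩ : ∃ h, h = (1 + c) * (1 + e) := ⟨_, rfl⟩
  obtain ⟨γ, hγ⟩ : ∃ γ, γ = α * β := ⟨_, rfl⟩
  have cγ : Commute c γ := by rw [hγ]; exact cα.mul_right cβ
  have eγ : Commute e γ := by rw [hγ]; exact eα.mul_right eβ
  have hγc : Commute h γ := by
    rw [hh]
    exact ((Commute.one_left γ).add_left cγ).mul_left ((Commute.one_left γ).add_left eγ)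
  have hUV : U * V = h * γ := by
    have h5 : α * (1 + e) = (1 + e) * α :=
      ((Commute.one_right α).add_right eα.symm).eq
    rw [hUα, hVβ, neg_mul_neg, hh, hγ]
    calc (1 + c) * α * ((1 + e) * β) = (1 + c) * (α * (1 + e)) * β := by noncomm_ring
      _ = (1 + c) * (1 + e) * (α * β) := by rw [h5]; noncomm_ring
  have hcube : h ^ 3 = 1 := by
    rw [pow_three', hh]; exact quat_cube h3 hcc hee hec
  obtain ⟨k, hk⟩ := H.two (u * v)
  have h4 : (h * γ) ^ 4 ^ k = 1 := by
    have h5 : (U * V) ^ 2 ^ k = 1 := by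
      rw [hU, hV, ← map_mul, ← map_pow, hk, map_one]
    rw [← hUV, show (4 : ℕ) = 2 * 2 by norm_num, mul_pow, pow_mul, h5, one_pow]
  have h4' : h ^ 4 ^ k = h := by
    have : (4 ^ k) % 3 = 1 := by
      rw [Nat.pow_mod]; norm_num
    have h5 : 4 ^ k = 3 * (4 ^ k / 3) + 1 := by omega
    rw [h5, pow_succ, pow_mul, hcube, one_pow, one_mul]
  rw [hγc.mul_pow, h4'] at h4
  set δ := γ ^ 4 ^ k with hδ
  have cδ : c * δ = δ * c := (cγ.pow_right _).eq
  have hδc : h * δ = δ * h := (hγc.pow_right _).eq
  have h5 : c * h = h * c := by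
    have h6 : (c * h - h * c) * δ = 0 := by
      have : (c * h - h * c) * δ = c * (h * δ) - h * (c * δ) := by noncomm_ring
      rw [this, cδ, h4, ← mul_assoc, h4]; simp
    have h7 : (c * h - h * c) * (δ * h) = 0 := by rw [← mul_assoc, h6, zero_mul]
    rw [← hδc, h4, mul_one] at h7
    exact sub_eq_zero.mp h7
  -- `c h - h c = 2 (c e - e)`
  have h6 : c * e = e := by
    have hcec : c * e * c = e := by
      rw [mul_assoc, hec, mul_neg, ← mul_assoc, hcc]; simp
    have h7 : c * h - h * c = c * e - e * c + (c * c) * e - c * e * c := by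
      rw [hh]; noncomm_ring
    rw [h5, sub_self, hcec, hcc, hec] at h7
    have h8 : c * e - -(c * e) + -1 * e - e = (1 + 1 + 1) * (c * e - e) - (c * e - e) := by
      noncomm_ring
    rw [h8, t3, zero_mul, zero_sub] at h7
    exact sub_eq_zero.mp (neg_eq_zero.mp h7.symm)
  have h7 : c = 1 := by
    have h8 : c * e * e = e * e := by rw [h6]
    rw [mul_assoc, hee] at h8
    simpa using h8
  rw [h7, one_mul] at hcc
  apply h1
  have h8 : (1 : R) + 1 = 0 := by
    nth_rewrite 1 [hcc]; simp
  rw [h8, zero_add] at t3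
  exact t3

end

end Pool.Agent.N151.LG
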