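import Pool.Agent.N151.LG.Free3

/-!
Case 1: `(s x)³ ≠ 1` for all involutions `s ≠ 1` and all elements `x` of order 3.
-/

universe u

namespace Pool.Agent.N151.LG

open Subgroup LF

section

variable {G : Type u} [Group G]

/-- the hypothesis of Case 1 -/
structure C1 (G : Type u) [Group G] : Prop where
  ord : Ord G
  comm3 : ∀ s x : G, s * s = 1 → x ^ 3 = 1 → (s * x⁻¹ * s * x) ^ 3 = 1
  no3 : ∀ s x : G, s * s = 1 → s ≠ 1 → x ^ 3 = 1 → (s * x) ^ 3 ≠ 1

theorem c1_of (hO : Ord G) (hF : HF G) (hB : ∀ s ∈ BS G, s = 1) : C1 G := by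
  have h3 : ∀ s x : G, s * s = 1 → s ≠ 1 → x ^ 3 = 1 → (s * x) ^ 3 ≠ 1 := by
    intro s x hs hs1 hx h
    exact hs1 (hB s (mem_BS hO hF hs hs1 hx h))
  refine ⟨hO, ?_, h3⟩
  intro s x hs hx
  by_cases hs1 : s = 1
  · rw [hs1]; simp
  rcases hF s x hs hx with h | h
  · exact absurd h (h3 s x hs hs1 hx)
  · exact h

theorem comm_of_conj {a y : G} (ha : a * a = 1) (h : a * y⁻¹ * a * y = 1) : a * y = y * a := by
  calc a * y = y * (y⁻¹ * a * y) := by group
    _ = y * ((a * a) * (y⁻¹ * a * y)) := by rw [ha, one_mul]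
    _ = y * a * (a * y⁻¹ * a * y) := by group
    _ = y * a := by rw [h, mul_one]

theorem C1.uniq (H : C1 G) {y : G} (hy : y ^ 3 = 1) (hy1 : y ≠ 1) {a b : G} (ha : a * a = 1)
    (ha1 : a ≠ 1) (hb : b * b = 1) (hb1 : b ≠ 1) (hab : a * b = b * a) : a = b := by
  by_contra hne
  set r := a * y⁻¹ * a * y with hr
  have hr3 : r ^ 3 = 1 := H.comm3 a y ha hy
  have hr1 : r ≠ 1 := by
    intro h
    rcases H.ord.comm' (comm_of_conj ha h) ha hy with h1 | h1
    · exact ha1 h1
    · exact hy1 h1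
  have har : a * r⁻¹ * a = r := by
    have : r⁻¹ = y⁻¹ * a * y * a := by
      rw [hr]; simp only [mul_inv_rev, inv_inv, inv_self ha]; group
    rw [this, hr]
    calc a * (y⁻¹ * a * y * a) * a = a * y⁻¹ * a * y * (a * a) := by group
      _ = a * y⁻¹ * a * y := by rw [ha, mul_one]
  have hab2 : (a * b) * (a * b) = 1 := by
    calc (a * b) * (a * b) = (a * b) * (b * a) := by rw [← hab]
      _ = a * (b * b) * a := by group
      _ = 1 := by rw [hb, mul_one, ha]
  have h1 := H.comm3 (a * b) r hab2 hr3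
  have e1 : a * b * r⁻¹ * (a * b) * r = (b * r) * (b * r) := by
    calc a * b * r⁻¹ * (a * b) * r = (a * b) * r⁻¹ * (a * b) * r := rfl
      _ = (b * a) * r⁻¹ * (a * b) * r := by rw [hab]
      _ = b * (a * r⁻¹ * a) * b * r := by group
      _ = (b * r) * (b * r) := by rw [har]; group
  rw [e1] at h1
  rcases H.ord (b * r) with ⟨j, h9⟩ | ⟨k, h9⟩
  · refine H.no3 b r hb hb1 hr3 ?_
    have h6 : (b * r) ^ 6 = 1 := by
      rw [← sq, ← pow_mul] at h1; exact h1
    exact cube_of_six h6 h9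
  · have h2 : (b * r) * (b * r) = 1 := by
      have h10 : ((b * r) * (b * r)) ^ (2 ^ k) = 1 := by
        rw [← sq, ← pow_mul, mul_comm, pow_mul, h9, one_pow]
      exact one_of_coprime h10 h1 (cop2_3 k)
    have h3 : b * r * b = r⁻¹ := by
      rw [eq_inv_iff_mul_eq_one]
      calc b * r * b * r = (b * r) * (b * r) := by group
        _ = 1 := h2
    have h4 : (a * b) * r = r * (a * b) := by
      calc (a * b) * r = a * (b * r * b) * b⁻¹ := by group
        _ = a * r⁻¹ * b := by rw [h3, inv_self hb]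
        _ = (a * r⁻¹ * a) * a⁻¹ * b := by group
        _ = r * (a * b) := by rw [har, inv_self ha]; group
    rcases H.ord.comm' h4 hab2 hr3 with h5 | h5
    · apply hne
      have : a = b⁻¹ := mul_eq_one_iff_eq_inv.mp h5
      rw [this, inv_self hb]
    · exact hr1 h5

/-- an involution inverts every element of order 3 -/
theorem C1.inverts (H : C1 G) {t x : G} (ht : t * t = 1) (ht1 : t ≠ 1) (hx : x ^ 3 = 1) :
    (t * x) * (t * x) = 1 := by
  by_cases hx1 : x = 1
  · rw [hx1, mul_one]; exact ht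
  by_contra hm1
  set m := (t * x) * (t * x) with hm
  have hxx : x⁻¹ * x⁻¹ = x := by
    have : x⁻¹ * x⁻¹ = (x ^ 3)⁻¹ * x := by group
    rw [this, hx]; group
  -- `m` commutes with `x⁻¹ m x`
  have hcm : Commute m (x⁻¹ * m * x) := by
    set r := t * x * t * x⁻¹ with hr
    have hr3 : r ^ 3 = 1 := by
      have := H.comm3 t x⁻¹ ht (cube_inv hx)
      rw [inv_inv] at this; exact this
    have h1 : (x * r) ^ 3 = 1 := by
      have e : x * r = (x * t) * x * (x * t)⁻¹ := by
        rw [hr, mul_inv_rev, inv_self ht]; group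
      rw [e]; exact conj_cube hx
    have e1 : m = r * x⁻¹ := by
      calc m = t * x * t * x := by rw [hm]; group
        _ = t * x * t * (x⁻¹ * x⁻¹) := by rw [hxx]
        _ = r * x⁻¹ := by rw [hr]; group
    have e2 : x⁻¹ * m * x = x⁻¹ * r := by rw [e1]; group
    have e3 : r * r = r⁻¹ := by
      rw [eq_inv_iff_mul_eq_one]
      calc r * r * r = r ^ 3 := by rw [pow_three']
        _ = 1 := hr3
    have e4 : r * x * r = x⁻¹ * r⁻¹ * x⁻¹ := by
      have : x⁻¹ * (x * r) ^ 3 * r⁻¹ * x⁻¹ = r * x * r := by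
        simp only [pow_succ, pow_zero]; group
      rw [← this, h1]; group
    show m * (x⁻¹ * m * x) = (x⁻¹ * m * x) * m
    rw [e2, e1]
    calc r * x⁻¹ * (x⁻¹ * r) = r * (x⁻¹ * x⁻¹) * r := by group
      _ = x⁻¹ * r⁻¹ * x⁻¹ := by rw [hxx, e4]
      _ = x⁻¹ * (r * r) * x⁻¹ := by rw [e3]
      _ = x⁻¹ * r * (r * x⁻¹) := by group
  have hpow : ∀ n : ℕ, Commute (m ^ n) (x⁻¹ * m ^ n * x) := by
    intro n
    have h1 := hcm.pow_pow n n
    have h2 := conj_pow (a := x⁻¹) (b := m) (i := n)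
    rw [inv_inv] at h2
    rw [h2] at h1; exact h1
  rcases H.ord (t * x) with ⟨j, h9⟩ | ⟨k, h9⟩
  · -- `t x` is a 3-element
    obtain ⟨i, hi⟩ : ∃ i, 3 ^ j + 1 = 2 * i := by
      have : Odd (3 ^ j) := Odd.pow (by decide)
      obtain ⟨d, hd⟩ := this
      exact ⟨d + 1, by omega⟩
    have h1 : m ^ i = t * x := by
      rw [hm, ← sq, ← pow_mul, ← hi, pow_succ, h9, one_mul]
    have h2 := hpow i
    rw [h1] at h2
    have h3 : (t * x) * (x⁻¹ * (t * x) * x) = (x⁻¹ * (t * x) * x) * (t * x) := h2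
    have e1 : (t * x) * (x⁻¹ * (t * x) * x) = (t * t) * (x * x) := by group
    have hx2 : x * x = x⁻¹ := by
      rw [eq_inv_iff_mul_eq_one, ← pow_three']; exact hx
    rw [e1, ht, one_mul] at h3
    have h4 : t * x⁻¹ = x⁻¹ * t := by
      have h5 : x * (x * x) * x⁻¹ = t * (x * x) * t := by
        calc x * (x * x) * x⁻¹ = x * (x⁻¹ * (t * x) * x * (t * x)) * x⁻¹ :=
              congrArg (fun w => x * w * x⁻¹) h3
          _ = t * (x * x) * t := by group
      have h6 : x * x = t * (x * x) * t := by rw [← h5]; group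
      rw [hx2] at h6
      calc t * x⁻¹ = t * (t * x⁻¹ * t) := by rw [← h6]
        _ = (t * t) * x⁻¹ * t := by group
        _ = x⁻¹ * t := by rw [ht, one_mul]
    rcases H.ord.comm' h4 ht (cube_inv hx) with h5 | h5
    · exact ht1 h5
    · exact hx1 (inv_eq_one.mp h5)
  · -- 2-element
    classical
    have hex : ∃ n : ℕ, m ^ 2 ^ n = 1 := ⟨k, by
      rw [hm, ← sq, ← pow_mul, mul_comm, pow_mul, h9, one_pow]⟩
    have hk := Nat.find_spec hex
    have hmin := fun n => Nat.find_min hex (m := n)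
    set n := Nat.find hex
    rcases n with _ | n
    · simp at hk; exact hm1 hk
    · have h1 : m ^ 2 ^ n ≠ 1 := hmin n (by omega)
      have h2 : m ^ 2 ^ n * m ^ 2 ^ n = 1 := by
        rw [← pow_add, ← two_mul, ← pow_succ']; exact hk
      have h3 := hpow (2 ^ n)
      set μ := m ^ 2 ^ n
      have h4 : x⁻¹ * μ * x ≠ 1 := by
        have := conj_ne (g := x⁻¹) h1
        rwa [inv_inv] at this
      have h5 := H.uniq hx hx1 h2 h1 (inv_conj (q := x) h2) h4 h3.eq
      have h6 : μ * x = x * μ := by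
        calc μ * x = x * (x⁻¹ * μ * x) := by group
          _ = x * μ := by rw [← h5]
      rcases H.ord.comm' h6 h2 hx with h7 | h7
      · exact h1 h7
      · exact hx1 h7

variable (H : C1 G) {t : G} (ht : t * t = 1) (ht1 : t ≠ 1)

include H ht ht1

theorem C1.abel {x y : G} (hx : x ^ 3 = 1) (hy : y ^ 3 = 1) : x * y = y * x := by
  have h1 := H.inverts ht ht1 hx
  have h2 := H.inverts ht ht1 hy
  have htx1 : t * x ≠ 1 := by
    intro h
    apply ht1
    have : t = x⁻¹ := mul_eq_one_iff_eq_inv.mp h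
    exact one_of_sq_cube ht (by rw [this]; exact cube_inv hx)
  have h3 := H.inverts h1 htx1 hy
  have e1 : t * x = x⁻¹ * t := by
    have := mul_eq_one_iff_eq_inv.mp h1
    rw [this, mul_inv_rev, inv_self ht]
  have e2 : t * y = y⁻¹ * t := by
    have := mul_eq_one_iff_eq_inv.mp h2
    rw [this, mul_inv_rev, inv_self ht]
  have h4 : x⁻¹ * y⁻¹ * x * y = 1 := by
    calc x⁻¹ * y⁻¹ * x * y = x⁻¹ * y⁻¹ * (t * t) * x * y := by rw [ht, mul_one]
      _ = x⁻¹ * (y⁻¹ * t) * (t * x) * y := by group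
      _ = x⁻¹ * (t * y) * (t * x) * y := by rw [e2]
      _ = (x⁻¹ * t) * y * (t * x) * y := by group
      _ = (t * x) * y * (t * x) * y := by rw [e1]
      _ = t * x * y * (t * x * y) := by group
      _ = 1 := h3
  calc x * y = y * x * (x⁻¹ * y⁻¹ * x * y) := by group
    _ = y * x := by rw [h4, mul_one]

/-- the subgroup of the elements of trivial cube -/
def C1.T : Subgroup G where
  carrier := {x | x ^ 3 = 1}
  one_mem' := one_pow 3
  mul_mem' := by
    intro a b ha hb
    show (a * b) ^ 3 = 1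
    have hc : Commute a b := H.abel ht ht1 ha hb
    have ha' : a ^ 3 = 1 := ha
    have hb' : b ^ 3 = 1 := hb
    rw [hc.mul_pow, ha', hb', one_mul]
  inv_mem' := by intro a ha; exact cube_inv ha

theorem C1.lf_T : LFin (C1.T H ht ht1) := by
  intro F hFT hF
  have hfg : Group.FG F := (Group.fg_iff_subgroup_fg F).mpr hF
  refine H15.Struct.finite_exp3 hfg ?_
  intro f
  apply Subtype.ext
  exact hFT f.2

/-- **Case 1**: `G` is an extension of a subgroup `K` that centralizes the elements of order 3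
by a locally finite group -/
theorem one_ext (hex : ∃ y : G, y ^ 3 = 1 ∧ y ≠ 1) : ∃ K : Subgroup G, K.Normal ∧
    (∀ g ∈ K, ∀ x : G, x ^ 3 = 1 → g * x = x * g) ∧ (LFin K → LFin (⊤ : Subgroup G)) := by
  set T := C1.T H ht ht1 with hT
  have hTn : T.Normal := ⟨fun x hx g => conj_cube hx⟩
  have hTc : ∀ a ∈ T, ∀ b ∈ T, a * b = b * a := fun a ha b hb => H.abel ht ht1 ha hb
  obtain ⟨A, _, ρ, e, he, heV, hes, hadd, hact⟩ := exists_rho T hTc
  have e0 : e 0 = 1 := by
    have := hadd 0 0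
    rw [add_zero] at this
    exact (mul_eq_left.mp this.symm)
  have h3 : (3 : AddMonoid.End A) = 0 := by
    have : (3 : AddMonoid.End A) = 1 + 1 + 1 := by norm_num
    rw [this]
    apply AddMonoidHom.ext
    intro a
    apply he
    show e (a + a + a) = e 0
    rw [hadd, hadd, e0, ← pow_three']
    exact heV a
  have h1 : (1 : AddMonoid.End A) ≠ 0 := by
    intro h
    obtain ⟨y, hy, hy1⟩ := hex
    obtain ⟨a, ha⟩ := hes y hy
    have h3 : a = 0 := by
      have := congrArg (fun f : AddMonoid.End A => f a) h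
      exact this
    apply hy1
    rw [← ha, h3, e0]
  have hm1 : (-1 : AddMonoid.End A) ≠ 1 := by
    intro h
    apply h1
    have h4 : (1 : AddMonoid.End A) + 1 = 0 := by
      nth_rewrite 1 [← h]; simp
    have h5 : (3 : AddMonoid.End A) = (1 + 1) + 1 := by norm_num
    rw [h4, zero_add, h3] at h5
    exact h5.symm
  -- an involution acts as `-1`
  have hneg : ∀ s : G, s * s = 1 → s ≠ 1 → ρ s = -1 := by
    intro s hs hs1
    apply AddMonoidHom.ext
    intro a
    apply he
    have h4 : e (-a) = (e a)⁻¹ := by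
      have := hadd (-a) a
      rw [neg_add_cancel, e0] at this
      exact (mul_eq_one_iff_eq_inv.mp this.symm)
    show e (ρ s a) = e (-a)
    rw [hact, h4]
    have h5 := H.inverts hs hs1 (heV a)
    have h6 := mul_eq_one_iff_eq_inv.mp h5
    rw [h6, mul_inv_rev, mul_assoc, ← mul_inv_rev, hs, inv_one, mul_one]
  have hker : ∀ g : G, ρ g = 1 → ∀ x : G, x ^ 3 = 1 → g * x = x * g := by
    intro g hg x hx
    obtain ⟨a, ha⟩ := hes x hx
    have h4 := hact g a
    rw [hg, ha] at h4
    have h5 : e a = g * x * g⁻¹ := h4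
    rw [ha] at h5
    calc g * x = (g * x * g⁻¹) * g := by group
      _ = x * g := by rw [← h5]
  obtain ⟨y, hy, hy1⟩ := hex
  -- 3-elements act trivially
  have h9 : ∀ g : G, (∃ j, g ^ 3 ^ j = 1) → ρ g = 1 := by
    rintro g ⟨j, hg⟩
    have g9 : ρ g ^ 3 ^ j = 1 := by rw [← map_pow, hg, map_one]
    rcases H.ord (t * g) with ⟨i, h⟩ | ⟨k, h⟩
    · exfalso
      have h4 : ρ (t * g) ^ 3 ^ (j + i) = 1 := by
        rw [← map_pow, add_comm, pow_add, pow_mul, h, one_pow, map_one]
      rw [map_mul, hneg t ht ht1, neg_one_mul, Odd.neg_pow (Odd.pow (by decide)), pow_add,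
        pow_mul, g9, one_pow] at h4
      exact hm1 h4
    · have h4 : ρ (t * g) ^ 2 ^ (k + 1) = 1 := by
        rw [← map_pow, pow_succ, pow_mul, h, one_pow, map_one]
      rw [map_mul, hneg t ht ht1, neg_one_mul, Even.neg_pow (by
        rw [pow_succ]; exact even_two.mul_left _)] at h4
      have h5 := orderOf_dvd_of_pow_eq_one h4
      have h6 := orderOf_dvd_of_pow_eq_one g9
      have h7 : orderOf (ρ g) ∣ 1 := by
        have := Nat.dvd_gcd h5 h6
        rwa [Nat.Coprime.gcd_eq_one (cop2_9 _ _)] at this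
      exact orderOf_eq_one_iff.mp (Nat.dvd_one.mp h7)
  set K := ρ.ker with hK
  refine ⟨K, by rw [hK]; infer_instance, fun g hg x hx => hker g hg x hx, ?_⟩
  intro hKLF
  refine LFin.quot hKLF ?_
  -- the quotient
  have hz1 : (QuotientGroup.mk t : G ⧸ K) ≠ 1 := by
    rw [Ne, QuotientGroup.eq_one_iff]
    intro h
    have h4 : ρ t = 1 := h
    rw [hneg t ht ht1] at h4
    exact hm1 h4
  have hFH : FH (QuotientGroup.mk t : G ⧸ K) := by
    refine ⟨?_, ?_, hz1, ?_⟩
    · intro q
      obtain ⟨g, rfl⟩ := QuotientGroup.mk_surjective q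
      rcases H.ord g with h | ⟨k, h⟩
      · refine ⟨0, ?_⟩
        rw [pow_zero, pow_one, QuotientGroup.eq_one_iff]
        exact h9 g h
      · exact ⟨k, by rw [← QuotientGroup.mk_pow, h, QuotientGroup.mk_one]⟩
    · rw [← QuotientGroup.mk_mul, ht, QuotientGroup.mk_one]
    · intro q hq
      obtain ⟨g, rfl⟩ := QuotientGroup.mk_surjective q
      rw [← QuotientGroup.mk_mul, QuotientGroup.eq_one_iff] at hq
      rcases H.ord g with h | ⟨k, h⟩
      · left
        rw [QuotientGroup.eq_one_iff]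
        exact h9 g h
      · have h4 := hker _ hq y hy
        have h5 : (g * g) ^ 2 ^ k = 1 := by
          rw [← sq, ← pow_mul, mul_comm, pow_mul, h, one_pow]
        rcases H.ord.comm h4 h5 (pow9_of_cube hy) with h6 | h6
        · by_cases hg1 : g = 1
          · left; rw [hg1, QuotientGroup.mk_one]
          · right
            rw [QuotientGroup.eq]
            show ρ (g⁻¹ * t) = 1
            rw [inv_self h6, map_mul, hneg g h6 hg1, hneg t ht ht1]; simp
        · exact absurd h6 hy1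
  refine hFH.lf ?_
  refine noA_of_ring hFH h3 h1 (QuotientGroup.lift K ρ (fun g hg => hg)) ?_
  show ρ t = -1
  exact hneg t ht ht1

end

section

variable {G : Type u} [Group G]

/-- **Case 1**, bounded orders of the 3-elements -/
theorem lf_one (H : C1 G) {t : G} (ht : t * t = 1) (ht1 : t ≠ 1) {m : ℕ} (hb : Bd G m)
    (hm : FinExp.{u} m) (hex : ∃ y : G, y ^ 3 = 1 ∧ y ≠ 1) : LFin (⊤ : Subgroup G) := by
  obtain ⟨K, hKn, hKc, hK⟩ := one_ext H ht ht1 hex
  apply hK
  have hTn : (C1.T H ht ht1).Normal := ⟨fun x hx g => conj_cube hx⟩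
  refine LFin.expm (K := C1.T H ht ht1) (C1.lf_T H ht ht1) hm ?_
  intro g hg
  obtain ⟨y, hy, hy1⟩ := hex
  have h4 := hKc g hg y hy
  show (g ^ m) ^ 3 = 1
  rcases H.ord g with h | ⟨k, h⟩
  · rw [← pow_mul, mul_comm]; exact hb g h
  · rcases H.ord.comm h4 h (pow9_of_cube hy) with h5 | h5
    · rw [h5]; simp
    · exact absurd h5 hy1

/-- **Case 1**, the centralizer of an element of order 3 is locally finite -/
theorem lf_one_c (H : C1 G) {t : G} (ht : t * t = 1) (ht1 : t ≠ 1) {x : G} (hx : x ^ 3 = 1)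
    (hx1 : x ≠ 1) (hC : LFin (centralizer {x} : Subgroup G)) : LFin (⊤ : Subgroup G) := by
  obtain ⟨K, hKn, hKc, hK⟩ := one_ext H ht ht1 ⟨x, hx, hx1⟩
  apply hK
  intro F hF
  apply hC F
  intro g hg
  rw [mem_centralizer_singleton_iff]
  exact hKc g (hF hg) x hx

end

section main

variable {G : Type u} [Group G]

/-- **Main theorem, bounded case**: let every element of `G` have order a power of 2 or a power
of 3 dividing `3 m`, where the groups of exponent `m` are locally finite, and let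
`(t x)³ = 1` or `[t, x]³ = 1` for all involutions `t` and all elements `x` of order 3; if `G` has
an involution and an element of order 3, then `G` is locally finite -/
theorem lf_main (hO : Ord G) {m : ℕ} (hb : Bd G m) (hm : FinExp.{u} m) (hF : HF G)
    (h2 : ∃ t : G, t * t = 1 ∧ t ≠ 1) (h3 : ∃ y : G, y ^ 3 = 1 ∧ y ≠ 1) :
    LFin (⊤ : Subgroup G) := by
  by_cases hB : ∃ s ∈ BS G, s ≠ 1
  · exact lf_two hO hb hm h3 hB
  · push Not at hB
    obtain ⟨t, ht, ht1⟩ := h2
    exact lf_one (c1_of hO hF hB) ht ht1 hb hm h3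

/-- **Main theorem** -/
theorem lf_main_c (hO : Ord G) (hF : HF G) (h2 : ∃ t : G, t * t = 1 ∧ t ≠ 1) {x : G}
    (hx : x ^ 3 = 1) (hx1 : x ≠ 1) (hC : LFin (centralizer {x} : Subgroup G)) :
    LFin (⊤ : Subgroup G) := by
  by_cases hB : ∃ s ∈ BS G, s ≠ 1
  · exact lf_two_c hO hx hx1 hC hB
  · push Not at hB
    obtain ⟨t, ht, ht1⟩ := h2
    exact lf_one_c (c1_of hO hF hB) ht ht1 hx hx1 hC

end main

end Pool.Agent.N151.LG
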