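import Pool.Agent.N151.LG.Facts
import Pool.Agent.H242P3.Fin

/-!
The action of a group on an abelian normal subgroup, and the ring argument in characteristic 2.
-/

universe u

namespace Pool.Agent.N151.LG

open Subgroup LF

section

variable {G : Type u} [Group G]

/-- conjugation on an abelian normal subgroup, as a monoid homomorphism to the ring of
endomorphisms -/
theorem exists_rho (V : Subgroup G) [hn : V.Normal] (hc : ∀ a ∈ V, ∀ b ∈ V, a * b = b * a) :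
    ∃ (A : Type u) (_ : AddCommGroup A) (ρ : G →* AddMonoid.End A) (e : A → G),
      Function.Injective e ∧ (∀ a, e a ∈ V) ∧ (∀ v ∈ V, ∃ a, e a = v) ∧
      (∀ a b, e (a + b) = e a * e b) ∧ (∀ g a, e (ρ g a) = g * e a * g⁻¹) := by
  let _ : CommGroup V := { (inferInstance : Group V) with
    mul_comm := fun a b => Subtype.ext (hc a a.2 b b.2) }
  refine ⟨Additive V, inferInstance,
    { toFun := fun g =>
        { toFun := fun a => Additive.ofMul ⟨g * (Additive.toMul a : V).1 * g⁻¹,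
            hn.conj_mem _ (Additive.toMul a : V).2 g⟩
          map_zero' := by
            apply Additive.toMul.injective
            apply Subtype.ext
            show g * (1 : G) * g⁻¹ = 1
            group
          map_add' := by
            intro a b
            apply Additive.toMul.injective
            apply Subtype.ext
            show g * ((Additive.toMul a : V).1 * (Additive.toMul b : V).1) * g⁻¹ =
              (g * (Additive.toMul a : V).1 * g⁻¹) * (g * (Additive.toMul b : V).1 * g⁻¹)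
            group }
      map_one' := by
        apply AddMonoidHom.ext
        intro a
        apply Additive.toMul.injective
        apply Subtype.ext
        show (1 : G) * (Additive.toMul a : V).1 * 1⁻¹ = (Additive.toMul a : V).1
        group
      map_mul' := by
        intro g h
        apply AddMonoidHom.ext
        intro a
        apply Additive.toMul.injective
        apply Subtype.ext
        show (g * h) * (Additive.toMul a : V).1 * (g * h)⁻¹ =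
          g * (h * (Additive.toMul a : V).1 * h⁻¹) * g⁻¹
        group }, fun a => (Additive.toMul a : V).1, ?_, ?_, ?_, ?_, ?_⟩
  · intro a b hab
    exact Additive.toMul.injective (Subtype.ext hab)
  · intro a; exact (Additive.toMul a : V).2
  · intro v hv; exact ⟨Additive.ofMul ⟨v, hv⟩, rfl⟩
  · intro a b; rfl
  · intro g a; rfl

end

/-! ### characteristic 2 -/

section ring2

variable {R : Type*} [Ring R]

theorem frob2 (h2 : (2 : R) = 0) {a b : R} (hab : a * b = b * a) (k : ℕ) :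
    (a + b) ^ 2 ^ k = a ^ 2 ^ k + b ^ 2 ^ k := by
  have key : ∀ a b : R, a * b = b * a → (a + b) ^ 2 = a ^ 2 + b ^ 2 := by
    intro a b hab
    have : (a + b) ^ 2 = a ^ 2 + b ^ 2 + 2 * (a * b) + (b * a - a * b) := by noncomm_ring
    rw [this, h2, hab]; simp
  induction k with
  | zero => simp
  | succ k ih =>
    rw [pow_succ, pow_mul, pow_mul, pow_mul, ih, key _ _ ((Commute.pow_pow hab _ _ : Commute _ _))]

theorem neg_eq2 (h2 : (2 : R) = 0) (a : R) : -a = a := by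
  have : a + a = 0 := by rw [← two_mul, h2, zero_mul]
  exact (eq_neg_of_add_eq_zero_left this).symm

theorem add_self2 (h2 : (2 : R) = 0) (a : R) : a + a = 0 := by rw [← two_mul, h2, zero_mul]

end ring2

theorem lte (j : ℕ) : ∃ a : ℕ, 2 ^ 3 ^ j + 1 = 3 ^ (j + 1) * a ∧ a % 3 ≠ 0 := by
  induction j with
  | zero => exact ⟨1, by norm_num, by norm_num⟩
  | succ j ih =>
    obtain ⟨a, ha, ha3⟩ := ih
    obtain ⟨d, hd⟩ : ∃ d : ℕ, 3 ^ j * a = d + 1 := by
      have : 3 ^ j * a ≠ 0 := by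
        have : a ≠ 0 := by rintro rfl; simp at ha3
        positivity
      exact Nat.exists_eq_succ_of_ne_zero this
    have hx : 2 ^ 3 ^ j = 3 * d + 2 := by
      have : 3 ^ (j + 1) * a = 3 * (3 ^ j * a) := by rw [pow_succ]; ring
      rw [this, hd] at ha
      omega
    refine ⟨a * (3 * (d * (d + 1)) + 1), ?_, ?_⟩
    · have e1 : 2 ^ 3 ^ (j + 1) = (2 ^ 3 ^ j) ^ 3 := by rw [← pow_mul, ← pow_succ]
      have e2 : 3 ^ (j + 1 + 1) * (a * (3 * (d * (d + 1)) + 1)) =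
          9 * (3 ^ j * a) * (3 * (d * (d + 1)) + 1) := by rw [pow_succ, pow_succ]; ring
      rw [e1, hx, e2, hd]; ring
    · have : a * (3 * (d * (d + 1)) + 1) = 3 * (a * (d * (d + 1))) + a := by ring
      rw [this]; omega

theorem two_pow_odd (j : ℕ) : ∃ q : ℕ, 2 ^ 3 ^ j = 3 * q + 2 := by
  obtain ⟨a, ha, _⟩ := lte j
  have e : 3 ^ (j + 1) * a = 3 * (3 ^ j * a) := by rw [pow_succ]; ring
  rw [e] at ha
  have : 3 ^ j * a ≠ 0 := by
    intro h
    rw [h] at ha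
    have := Nat.pos_of_ne_zero (pow_ne_zero (3 ^ j) (two_ne_zero (α := ℕ)))
    omega
  obtain ⟨d, hd⟩ := Nat.exists_eq_succ_of_ne_zero this
  exact ⟨d, by omega⟩

section

variable {G : Type*} [Group G] {R : Type*} [Ring R]

/-- trace of an element -/
def kap (ρ : G →* R) (g : G) : R := ρ g + ρ g⁻¹

theorem kap_pow (h2 : (2 : R) = 0) (ρ : G →* R) (g : G) (k : ℕ) :
    kap ρ g ^ 2 ^ k = kap ρ (g ^ 2 ^ k) := by
  have c : ρ g * ρ g⁻¹ = ρ g⁻¹ * ρ g := by
    rw [← map_mul, ← map_mul, mul_inv_cancel, inv_mul_cancel]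
  unfold kap
  rw [frob2 h2 c, ← map_pow, ← map_pow, inv_pow]

variable (h2 : (2 : R) = 0) (ρ : G →* R)
  (h3 : ∀ y : G, y ^ 3 = 1 → y ≠ 1 → 1 + ρ y + ρ y * ρ y = 0)

include h2 h3

theorem sum_conj {y : G} (hy : y ^ 3 = 1) (hy1 : y ≠ 1) : 1 + ρ y⁻¹ + ρ y = 0 := by
  have h4 := h3 y hy hy1
  have e : y⁻¹ = y * y := by
    rw [inv_eq_iff_mul_eq_one, ← pow_three]; exact hy
  rw [e, map_mul, ← h4]
  abel

/-- a 3-element with trivial action is trivial -/
theorem triv_of_rho (h1 : (1 : R) ≠ 0) {h : G} {j : ℕ} (hj : h ^ 3 ^ j = 1) (hρ : ρ h = 1) :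
    h = 1 := by
  induction j with
  | zero => simpa using hj
  | succ j ih =>
    apply ih
    by_contra hne
    have h4 := h3 (h ^ 3 ^ j) (by rw [← pow_mul, ← pow_succ]; exact hj) hne
    rw [map_pow, hρ, one_pow, mul_one] at h4
    apply h1
    have : (1 : R) + 1 + 1 = 2 + 1 := by norm_num
    rw [this, h2, zero_add] at h4
    exact h4

theorem trace1 {g : G} {n : ℕ} (hg : g ^ 3 ^ (n + 2) = 1) (hg1 : g ^ 3 ^ (n + 1) ≠ 1) :
    kap ρ g + kap ρ g ^ 2 ^ 3 ^ n + (kap ρ g ^ 2 ^ 3 ^ n) ^ 2 ^ 3 ^ n = 0 := by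
  obtain ⟨a, ha, ha3⟩ := lte n
  obtain ⟨q, hq⟩ := two_pow_odd n
  rw [kap_pow h2, kap_pow h2]
  set Z := g ^ 3 ^ (n + 1) with hZ
  have hZ3 : Z ^ 3 = 1 := by rw [hZ, ← pow_mul, ← pow_succ]; exact hg
  obtain ⟨Y, hY⟩ : ∃ Y, Y = Z ^ a := ⟨_, rfl⟩
  have hY3 : Y ^ 3 = 1 := by rw [hY, ← pow_mul, mul_comm, pow_mul, hZ3, one_pow]
  have hY1 : Y ≠ 1 := by
    intro h
    apply hg1
    have h5 := orderOf_dvd_of_pow_eq_one (hY ▸ h : Z ^ a = 1)
    have h6 := orderOf_dvd_of_pow_eq_one hZ3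
    have h7 : Nat.Coprime 3 a := (Nat.Prime.coprime_iff_not_dvd Nat.prime_three).mpr (by
      intro h; exact ha3 (Nat.mod_eq_zero_of_dvd h))
    have h8 := Nat.dvd_gcd h6 h5
    rw [h7.gcd_eq_one] at h8
    exact orderOf_eq_one_iff.mp (Nat.dvd_one.mp h8)
  have hYg : Commute Y g := by
    rw [hY, hZ]; exact ((Commute.refl g).pow_left _).pow_left _
  -- `g ^ Q = Y g⁻¹`
  have e1 : g ^ 2 ^ 3 ^ n = Y * g⁻¹ := by
    rw [eq_mul_inv_iff_mul_eq, ← pow_succ, ha, pow_mul, ← hZ, hY]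
  have e2 : Y ^ 2 ^ 3 ^ n = Y⁻¹ := by
    rw [hq, pow_add, pow_mul, hY3, one_pow, one_mul, eq_inv_iff_mul_eq_one, ← pow_succ]
    exact hY3
  have e3 : (g ^ 2 ^ 3 ^ n) ^ 2 ^ 3 ^ n = g * Y := by
    rw [e1, hYg.inv_right.mul_pow, e2, inv_pow, e1, mul_inv_rev, inv_inv]
    have h5 : Y⁻¹ * (g * Y⁻¹) = g * (Y⁻¹ * Y⁻¹) := by
      rw [← mul_assoc, hYg.inv_left.eq, mul_assoc]
    have h6 : Y⁻¹ * Y⁻¹ = Y := by
      have : Y⁻¹ * Y⁻¹ = (Y ^ 3)⁻¹ * Y := by group
      rw [this, hY3]; group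
    rw [h5, h6]
  rw [e3, e1]
  unfold kap
  have s1 := sum_conj h2 ρ h3 hY3 hY1
  have e4 : ρ (Y * g⁻¹)⁻¹ = ρ g * ρ Y⁻¹ := by rw [mul_inv_rev, inv_inv, map_mul]
  have e5 : ρ (Y * g⁻¹) = ρ g⁻¹ * ρ Y := by rw [hYg.inv_right.eq, map_mul]
  have e6 : ρ (g * Y) = ρ g * ρ Y := map_mul _ _ _
  have e7 : ρ (g * Y)⁻¹ = ρ g⁻¹ * ρ Y⁻¹ := by
    rw [← hYg.eq, mul_inv_rev, map_mul]
  rw [e4, e5, e6, e7]
  have : ρ g + ρ g⁻¹ + (ρ g⁻¹ * ρ Y + ρ g * ρ Y⁻¹) + (ρ g * ρ Y + ρ g⁻¹ * ρ Y⁻¹) =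
      ρ g * (1 + ρ Y⁻¹ + ρ Y) + ρ g⁻¹ * (1 + ρ Y⁻¹ + ρ Y) := by noncomm_ring
  rw [this, s1, mul_zero, mul_zero, add_zero]

omit h3 in
theorem trace2 {g : G} {n : ℕ} (hg : g ^ 3 ^ (n + 1) = 1) :
    kap ρ g ^ 2 ^ 3 ^ n = kap ρ g := by
  obtain ⟨a, ha, _⟩ := lte n
  rw [kap_pow h2]
  have e1 : g ^ 2 ^ 3 ^ n = g⁻¹ := by
    rw [eq_inv_iff_mul_eq_one, ← pow_succ, ha, pow_mul, hg, one_pow]
  rw [e1]
  unfold kap
  rw [inv_inv, add_comm]

/-- two 3-elements of order at least 9 -/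
theorem both3 (h1 : (1 : R) ≠ 0) {g g' : G} (hk : kap ρ g' = kap ρ g + 1) {n n' : ℕ}
    (hg : g ^ 3 ^ (n + 2) = 1) (hg1 : g ^ 3 ^ (n + 1) ≠ 1)
    (hg' : g' ^ 3 ^ (n' + 2) = 1) (hg1' : g' ^ 3 ^ (n' + 1) ≠ 1) (hnn : n' ≤ n) : False := by
  have t1 := trace1 h2 ρ h3 hg hg1
  have hfr : ∀ (y : R) (k : ℕ), (y + 1) ^ 2 ^ k = y ^ 2 ^ k + 1 := by
    intro y k
    rw [frob2 h2 (by rw [mul_one, one_mul]), one_pow]
  rcases Nat.lt_or_ge n' n with h | h
  · -- `n' < n`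
    have t2 : kap ρ g' ^ 2 ^ 3 ^ n = kap ρ g' := by
      apply trace2 h2
      obtain ⟨d, rfl⟩ := Nat.exists_eq_add_of_lt h
      rw [show n' + d + 1 + 1 = (n' + 2) + d by ring, pow_add, pow_mul, hg', one_pow]
    rw [hk, hfr] at t2
    have t3 : kap ρ g ^ 2 ^ 3 ^ n = kap ρ g := add_right_cancel t2
    rw [t3, t3, add_self2 h2, zero_add] at t1
    -- `κ = 0`
    have t4 : ρ (g * g) = 1 := by
      have h5 : ρ g = ρ g⁻¹ := by
        have := eq_neg_of_add_eq_zero_left t1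
        rw [neg_eq2 h2] at this
        exact this
      rw [map_mul]
      nth_rewrite 1 [h5]
      rw [← map_mul, inv_mul_cancel, map_one]
    have t5 : (g * g) ^ 3 ^ (n + 2) = 1 := by
      rw [← sq, ← pow_mul, mul_comm, pow_mul, hg, one_pow]
    have t6 := triv_of_rho h2 ρ h3 h1 t5 t4
    have t7 : g = 1 := one_of_coprime (m := 2 ^ 1) (by rw [pow_one, sq]; exact t6) hg
      (cop2_9 _ _)
    apply hg1
    rw [t7, one_pow]
  · have : n' = n := le_antisymm hnn h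
    subst this
    have t2 := trace1 h2 ρ h3 hg' hg1'
    rw [hk, hfr, hfr] at t2
    apply h1
    have t3 : kap ρ g + 1 + (kap ρ g ^ 2 ^ 3 ^ n' + 1) +
        ((kap ρ g ^ 2 ^ 3 ^ n') ^ 2 ^ 3 ^ n' + 1) = (kap ρ g + kap ρ g ^ 2 ^ 3 ^ n' +
        (kap ρ g ^ 2 ^ 3 ^ n') ^ 2 ^ 3 ^ n') + (1 + 1) + 1 := by abel
    rw [t3, t1, add_self2 h2, zero_add, zero_add] at t2
    exact t2

/-- a 2-element and a 3-element -/
theorem mixed (h1 : (1 : R) ≠ 0) {g g' : G} (hk : kap ρ g' = kap ρ g + 1) {n j : ℕ}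
    (hg : g ^ 2 ^ n = 1) (hg' : g' ^ 3 ^ j = 1) : g' ^ 3 = 1 := by
  have t1 : kap ρ g ^ 2 ^ n = 0 := by
    rw [kap_pow h2, hg]
    unfold kap
    rw [inv_one, add_self2 h2]
  have t2 : kap ρ (g' ^ 2 ^ n) = 1 := by
    rw [← kap_pow h2, hk, frob2 h2 (by rw [mul_one, one_mul]), one_pow, t1, zero_add]
  set h := g' ^ 2 ^ n with hh
  have hj : h ^ 3 ^ j = 1 := by rw [hh, ← pow_mul, mul_comm, pow_mul, hg', one_pow]
  have t3 : 1 + ρ h + ρ h * ρ h = 0 := by
    have h5 : ρ h * (ρ h + ρ h⁻¹) = ρ h := by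
      have : ρ h + ρ h⁻¹ = 1 := t2
      rw [this, mul_one]
    rw [mul_add, ← map_mul ρ h h⁻¹, mul_inv_cancel, map_one] at h5
    calc 1 + ρ h + ρ h * ρ h = (ρ h * ρ h + 1) + ρ h := by abel
      _ = 0 := by rw [h5, add_self2 h2]
  have t4 : ρ (h ^ 3) = 1 := by
    have : ρ (h ^ 3) = (ρ h - 1) * (1 + ρ h + ρ h * ρ h) + 1 := by
      rw [map_pow, pow_three']; noncomm_ring
    rw [this, t3, mul_zero, zero_add]
  have t5 : (h ^ 3) ^ 3 ^ j = 1 := by rw [← pow_mul, mul_comm, pow_mul, hj, one_pow]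
  have t6 := triv_of_rho h2 ρ h3 h1 t5 t4
  have t7 : (g' ^ 3) ^ 2 ^ n = 1 := by rw [← pow_mul, mul_comm, pow_mul, ← hh, t6]
  have t8 : (g' ^ 3) ^ 3 ^ j = 1 := by rw [← pow_mul, mul_comm, pow_mul, hg', one_pow]
  exact one_of_coprime t7 t8 (cop2_9 _ _)

/-- **The ring argument**: if the elements of order 3 act fixed point freely in characteristic 2,
then the group has the property `HP` -/
theorem hp_of (hO : Ord G) (h1 : (1 : R) ≠ 0) : H242.P3.HP G := by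
  intro x y hx hy
  by_cases hx1 : x = 1
  · left; rw [hx1, one_mul]; exact hy
  by_cases hy1 : y = 1
  · left; rw [hy1, mul_one]; exact hx
  by_contra hcon
  push Not at hcon
  obtain ⟨hc1, hc2⟩ := hcon
  have hinv : ∀ y : G, y ^ 3 = 1 → y ≠ 1 → ρ y⁻¹ = 1 + ρ y := by
    intro y hy hy1
    have e : y⁻¹ = y * y := by
      rw [inv_eq_iff_mul_eq_one, ← pow_three]; exact hy
    have := h3 y hy hy1
    rw [e, map_mul]
    have h5 := eq_neg_of_add_eq_zero_right this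
    rw [h5, neg_eq2 h2]
  have hyi : ρ y⁻¹ = 1 + ρ y := hinv y hy hy1
  have hxi : ρ x⁻¹ = 1 + ρ x := hinv x hx hx1
  have hk : kap ρ (x * y⁻¹) = kap ρ (x * y) + 1 := by
    unfold kap
    rw [mul_inv_rev, mul_inv_rev, inv_inv, map_mul, map_mul, map_mul, map_mul, hyi, hxi]
    have : ρ x * ρ y + (1 + ρ y) * (1 + ρ x) + 1 = ρ x * (1 + ρ y) + ρ y * (1 + ρ x) +
        2 * (1 + ρ x * ρ y - ρ x * ρ y) := by noncomm_ring
    rw [this, h2, zero_mul, add_zero]
  have hk' : kap ρ (x * y) = kap ρ (x * y⁻¹) + 1 := by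
    rw [hk, add_assoc, add_self2 h2, add_zero]
  classical
  -- the exponent of a 3-element of order at least 9
  have hexp : ∀ g : G, g ^ 3 ≠ 1 → (∃ j, g ^ 3 ^ j = 1) →
      ∃ n, g ^ 3 ^ (n + 2) = 1 ∧ g ^ 3 ^ (n + 1) ≠ 1 := by
    intro g hg hex
    have hk := Nat.find_spec hex
    have hmin := fun m => Nat.find_min hex (m := m)
    set k := Nat.find hex
    rcases k with _ | _ | k
    · exfalso; apply hg
      have : g = 1 := by simpa using hk
      rw [this, one_pow]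
    · exfalso; apply hg; simpa using hk
    · exact ⟨k, hk, hmin (k + 1) (by omega)⟩
  rcases hO (x * y) with hA | ⟨n, hA⟩ <;> rcases hO (x * y⁻¹) with hB | ⟨m, hB⟩
  · obtain ⟨n, a1, a2⟩ := hexp _ hc1 hA
    obtain ⟨m, b1, b2⟩ := hexp _ hc2 hB
    rcases le_total m n with h | h
    · exact both3 h2 ρ h3 h1 hk a1 a2 b1 b2 h
    · exact both3 h2 ρ h3 h1 hk' b1 b2 a1 a2 h
  · obtain ⟨j, hj⟩ := hA
    exact hc1 (mixed h2 ρ h3 h1 hk' hB hj)
  · obtain ⟨j, hj⟩ := hB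
    exact hc2 (mixed h2 ρ h3 h1 hk hA hj)
  · -- two 2-elements
    apply h1
    have t1 : kap ρ (x * y) ^ 2 ^ (n + m) = 0 := by
      rw [kap_pow h2]
      have : (x * y) ^ 2 ^ (n + m) = 1 := by rw [pow_add, pow_mul, hA, one_pow]
      rw [this]; unfold kap; rw [inv_one, add_self2 h2]
    have t2 : kap ρ (x * y⁻¹) ^ 2 ^ (n + m) = 0 := by
      rw [kap_pow h2]
      have : (x * y⁻¹) ^ 2 ^ (n + m) = 1 := by
        rw [add_comm, pow_add, pow_mul, hB, one_pow]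
      rw [this]; unfold kap; rw [inv_one, add_self2 h2]
    rw [hk, frob2 h2 (by rw [mul_one, one_mul]), one_pow, t1, zero_add] at t2
    exact t2

end

end Pool.Agent.N151.LG
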