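import Pool.Agent.N151.LG.One

/-!
In a soluble group whose elements have order a power of 2 or a divisor of 9, `(t x)³ = 1` or
`[t, x]³ = 1` for every involution `t` and every element `x` of order 3.
-/

universe u

namespace Pool.Agent.N151.LG

open Subgroup LF
open scoped commutatorElement

theorem one_of_pow9_two {G : Type*} [Group G] {g : G} {k j : ℕ} (h9 : g ^ 3 ^ j = 1)
    (h3 : (g ^ 3) ^ 2 ^ k = 1) : g ^ 3 = 1 := by
  have h1 : (g ^ 3) ^ 3 ^ j = 1 := by rw [← pow_mul, mul_comm, pow_mul, h9, one_pow]
  exact one_of_coprime h3 h1 (cop2_9 k j)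

/-- a subgroup on which an involution acts freely by conjugation: the involution inverts the
elements of order a power of 3 -/
theorem inverts_of_free {G : Type*} [Group G] (hO : Ord G) {t c : G} (ht : t * t = 1)
    (ht1 : t ≠ 1) (C : Subgroup G) (hC : C.Normal) (hC9 : ∀ g ∈ C, ∃ j, g ^ 3 ^ j = 1) (hc : c ∈ C) :
    t * c * t * c = 1 := by
  -- `w = [t, c]`
  set w := t * c⁻¹ * t * c with hw
  have hwC : w ∈ C := by
    have : t * c⁻¹ * t⁻¹ ∈ C := hC.conj_mem _ (inv_mem hc) t
    rw [inv_self ht] at this
    exact mul_mem this hc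
  obtain ⟨j, hw9⟩ := hC9 w hwC
  obtain ⟨i, hi⟩ : ∃ i, 3 ^ j + 1 = 2 * i := by
    have : Odd (3 ^ j) := Odd.pow (by decide)
    obtain ⟨d, hd⟩ := this
    exact ⟨d + 1, by omega⟩
  have hwt : t * w * t = w⁻¹ := by
    have e1 : w⁻¹ = c⁻¹ * t * c * t := by
      rw [hw]; simp only [mul_inv_rev, inv_inv, inv_self ht]; group
    rw [e1, hw]
    calc t * (t * c⁻¹ * t * c) * t = (t * t) * (c⁻¹ * t * c * t) := by group
      _ = c⁻¹ * t * c * t := by rw [ht, one_mul]
  -- `v² = w` with `v = w ^ i`
  have hv2 : w ^ i * w ^ i = w := by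
    rw [← pow_add, ← two_mul, ← hi, pow_succ, hw9, one_mul]
  have hvt : t * w ^ i * t = (w ^ i)⁻¹ := by
    have := conj_pow (a := t) (b := w) (i := i)
    rw [inv_self ht, hwt] at this
    rw [← this, inv_pow]
  set v := w ^ i with hv
  have hvC : v ∈ C := pow_mem hwC i
  -- `c v⁻¹` commutes with `t`
  have h1 : t * (c * v⁻¹) = (c * v⁻¹) * t := by
    have e1 : c⁻¹ * t * c = t * w := by
      rw [hw]
      calc c⁻¹ * t * c = (t * t) * (c⁻¹ * t * c) := by rw [ht, one_mul]
        _ = t * (t * c⁻¹ * t * c) := by group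
    have e2 : v⁻¹ * t * v = t * w := by
      calc v⁻¹ * t * v = (t * v * t) * t * v := by rw [hvt]
        _ = t * v * (t * t) * v := by group
        _ = t * (v * v) := by rw [ht]; group
        _ = t * w := by rw [hv2]
    have e3 : t * c = c * (v⁻¹ * t * v) := by
      rw [e2, ← e1]; group
    calc t * (c * v⁻¹) = (t * c) * v⁻¹ := by group
      _ = c * (v⁻¹ * t * v) * v⁻¹ := by rw [e3]
      _ = (c * v⁻¹) * t := by group
  have hcv : c * v⁻¹ ∈ C := mul_mem hc (inv_mem hvC)
  obtain ⟨j', hj'⟩ := hC9 _ hcv
  rcases hO.comm (k := 1) h1 (by rw [pow_one, sq, ht]) hj' with h2 | h2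
  · exact absurd h2 ht1
  · have : c = v := mul_inv_eq_one.mp h2
    rw [this, hvt, inv_mul_cancel]

theorem hf_solv (n : ℕ) : ∀ (H : Type u) [Group H], derivedSeries H n = ⊥ → Ord H → HF H := by
  induction n with
  | zero =>
    intro H _ hn _ t x _ _
    left
    have h1 : (t * x) ^ 3 ∈ (⊥ : Subgroup H) := by rw [← hn, derivedSeries_zero]; trivial
    exact mem_bot.mp h1
  | succ n ih =>
    intro H _ hn hO t x ht hx
    set M := derivedSeries H n with hM
    have hMn : M.Normal := by rw [hM]; infer_instance
    have hMc : ∀ a ∈ M, ∀ b ∈ M, a * b = b * a := by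
      intro a ha b hb
      have h1 : ⁅a, b⁆ ∈ derivedSeries H (n + 1) := by
        rw [derivedSeries_succ]
        exact commutator_mem_commutator ha hb
      rw [hn, mem_bot, commutatorElement_eq_one_iff_mul_comm] at h1
      exact h1
    by_cases ht1 : t = 1
    · left; rw [ht1, one_mul]; exact hx
    by_cases hx1 : x = 1
    · right; rw [hx1, inv_one, mul_one, mul_one, ht, one_pow]
    by_cases hA : ∃ y ∈ M, y ^ 3 = 1 ∧ y ≠ 1
    · -- `M` has elements of order 3
      obtain ⟨y, hyM, hy, hy1⟩ := hA
      right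
      -- involutions invert the elements of order 3 of `M`
      have hinv : ∀ s : H, s * s = 1 → s ≠ 1 → ∀ m ∈ M, m ^ 3 = 1 → s * m * s = m⁻¹ := by
        intro s hs hs1 m hm hm3
        have hmc : m * (s * m * s) = (s * m * s) * m := by
          apply hMc m hm
          have := hMn.conj_mem m hm s
          rwa [inv_self hs] at this
        have h1 : s * (m * (s * m * s)) = (m * (s * m * s)) * s := by
          calc s * (m * (s * m * s)) = s * ((s * m * s) * m) := by rw [hmc]
            _ = (s * s) * m * s * m := by group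
            _ = m * s * m * (s * s) := by rw [hs]; group
            _ = (m * (s * m * s)) * s := by group
        have h2 : (m * (s * m * s)) ^ 3 = 1 := by
          have hc : Commute m (s * m * s) := hmc
          rw [hc.mul_pow, hm3, one_mul]
          have := conj_cube (g := s) hm3
          rwa [inv_self hs] at this
        rcases hO.comm' h1 hs h2 with h3 | h3
        · exact absurd h3 hs1
        · exact (inv_eq_of_mul_eq_one_right h3).symm
      -- the centralizer of the elements of order 3 of `M`
      let C : Subgroup H :=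
        { carrier := {c | ∀ m ∈ M, m ^ 3 = 1 → c * m = m * c}
          one_mem' := by intro m _ _; rw [one_mul, mul_one]
          mul_mem' := by
            intro a b ha hb m hm hm3
            rw [mul_assoc, hb m hm hm3, ← mul_assoc, ha m hm hm3, mul_assoc]
          inv_mem' := by
            intro a ha m hm hm3
            rw [inv_mul_eq_iff_eq_mul, ← mul_assoc, ha m hm hm3, mul_inv_cancel_right] }
      have hCn : C.Normal := by
        refine ⟨fun c hc g => ?_⟩
        intro m hm hm3
        have h1 := hc (g⁻¹ * m * g⁻¹⁻¹) (hMn.conj_mem m hm g⁻¹) (conj_cube hm3)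
        calc g * c * g⁻¹ * m = g * (c * (g⁻¹ * m * g⁻¹⁻¹)) * g⁻¹ := by group
          _ = g * ((g⁻¹ * m * g⁻¹⁻¹) * c) * g⁻¹ := by rw [h1]
          _ = m * (g * c * g⁻¹) := by group
      have hC9 : ∀ g ∈ C, ∃ j, g ^ 3 ^ j = 1 := by
        intro g hg
        rcases hO g with h | ⟨k, h⟩
        · exact h
        · rcases hO.comm (hg y hyM hy) h (pow9_of_cube hy) with h1 | h1
          · exact ⟨0, by rw [h1, one_pow]⟩
          · exact absurd h1 hy1
      -- `x` lies in `C`
      have hxC : x ∈ C := by
        intro m hm hm3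
        have ht2 := hinv t ht ht1 m hm hm3
        -- the action of `x t x⁻¹ t` is trivial; use the order of `t x`
        have hconj : ∀ g : H, ∀ m ∈ M, m ^ 3 = 1 → g * m * g⁻¹ ∈ M ∧ (g * m * g⁻¹) ^ 3 = 1 :=
          fun g m hm hm3 => ⟨hMn.conj_mem m hm g, conj_cube hm3⟩
        -- `(t x)^j m (t x)^{-j} = (x^j m x^{-j})^{±1}`
        have key : ∀ j : ℕ, ∀ m ∈ M, m ^ 3 = 1 →
            (t * x) ^ (2 * j) * m * ((t * x) ^ (2 * j))⁻¹ = x ^ (2 * j) * m * (x ^ (2 * j))⁻¹ := by
          intro j
          induction j with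
          | zero => intro m _ _; simp
          | succ j ihj =>
            intro m hm hm3
            have h0 : (t * x) * (t * x) * m * ((t * x) * (t * x))⁻¹ = x * x * m * (x * x)⁻¹ := by
              have a1 := hconj x m hm hm3
              have a2 := hinv t ht ht1 _ a1.1 a1.2
              have a3 := hconj x (x * m * x⁻¹)⁻¹ (inv_mem a1.1) (cube_inv a1.2)
              have a4 := hinv t ht ht1 _ a3.1 a3.2
              calc (t * x) * (t * x) * m * ((t * x) * (t * x))⁻¹
                  = t * (x * (t * (x * m * x⁻¹) * t⁻¹) * x⁻¹) * t⁻¹ := by group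
                _ = t * (x * (x * m * x⁻¹)⁻¹ * x⁻¹) * t := by rw [inv_self ht, a2]
                _ = (x * (x * m * x⁻¹)⁻¹ * x⁻¹)⁻¹ := a4
                _ = x * x * m * (x * x)⁻¹ := by simp only [mul_inv_rev, inv_inv, mul_assoc]
            have a1 := hconj (x * x) m hm hm3
            have a2 := ihj _ a1.1 a1.2
            calc (t * x) ^ (2 * (j + 1)) * m * ((t * x) ^ (2 * (j + 1)))⁻¹
                = (t * x) ^ (2 * j) * ((t * x) * (t * x) * m * ((t * x) * (t * x))⁻¹) *
                  ((t * x) ^ (2 * j))⁻¹ := by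
                  rw [show 2 * (j + 1) = 2 * j + 1 + 1 by ring, pow_succ, pow_succ]; group
              _ = x ^ (2 * j) * (x * x * m * (x * x)⁻¹) * (x ^ (2 * j))⁻¹ := by rw [h0, a2]
              _ = x ^ (2 * (j + 1)) * m * (x ^ (2 * (j + 1)))⁻¹ := by
                  rw [show 2 * (j + 1) = 2 * j + 1 + 1 by ring, pow_succ, pow_succ]; group
        rcases hO (t * x) with ⟨j, h9⟩ | ⟨k, h⟩
        · -- `t x` is a 3-element: then it would act as an element of even order
          exfalso
          obtain ⟨i, hi⟩ : ∃ i, 3 ^ (j + 1) = 2 * i + 1 := by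
            have : Odd (3 ^ (j + 1)) := Odd.pow (by decide)
            obtain ⟨d, hd⟩ := this
            exact ⟨d, by omega⟩
          have h9' : (t * x) ^ (2 * i + 1) = 1 := by
            rw [← hi, pow_succ, pow_mul, h9, one_pow]
          have hx9' : x ^ (2 * i + 1) = 1 := by
            rw [← hi, pow_succ', pow_mul, hx, one_pow]
          have b2 := key i y hyM hy
          have a1 := hconj (x ^ (2 * i)) y hyM hy
          have a5 := hconj x _ a1.1 a1.2
          have a6 := hinv t ht ht1 _ a5.1 a5.2
          have b3 : (t * x) ^ (2 * i + 1) * y * ((t * x) ^ (2 * i + 1))⁻¹ = y⁻¹ := by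
            calc (t * x) ^ (2 * i + 1) * y * ((t * x) ^ (2 * i + 1))⁻¹
                = t * (x * ((t * x) ^ (2 * i) * y * ((t * x) ^ (2 * i))⁻¹) * x⁻¹) * t⁻¹ := by
                  have e9 : (t * x) ^ (2 * i + 1) = t * (x * (t * x) ^ (2 * i)) := by
                    rw [pow_succ', mul_assoc]
                  rw [e9]; simp only [mul_inv_rev, mul_assoc]
              _ = t * (x * (x ^ (2 * i) * y * (x ^ (2 * i))⁻¹) * x⁻¹) * t := by
                  rw [b2, inv_self ht]
              _ = (x * (x ^ (2 * i) * y * (x ^ (2 * i))⁻¹) * x⁻¹)⁻¹ := a6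
              _ = (x ^ (2 * i + 1) * y * (x ^ (2 * i + 1))⁻¹)⁻¹ := by
                  rw [pow_succ' x]; simp only [mul_inv_rev, mul_assoc]
              _ = y⁻¹ := by rw [hx9']; group
          rw [h9'] at b3
          have b4 : y = y⁻¹ := by
            calc y = 1 * y * 1⁻¹ := by group
              _ = y⁻¹ := b3
          have b5 : y * y = 1 := by nth_rewrite 1 [b4]; group
          exact hy1 (one_of_sq_cube b5 hy)
        · -- `x^(2^(k+1))` acts trivially, hence `x` acts trivially
          have h1 := key (2 ^ k) m hm hm3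
          rw [show 2 * 2 ^ k = 2 ^ k * 2 by ring, pow_mul, pow_mul, h, one_pow] at h1
          have h2 : m = (x ^ 2 ^ k) ^ 2 * m * ((x ^ 2 ^ k) ^ 2)⁻¹ := by
            rw [← h1]; group
          rw [← pow_mul, ← pow_succ] at h2
          -- `x ^ (2^(k+1))` is `x` or `x⁻¹`
          have h3 : (2 ^ (k + 1)) % 3 = 1 ∨ (2 ^ (k + 1)) % 3 = 2 := by
            have : ∀ j : ℕ, (2 ^ j) % 3 = 1 ∨ (2 ^ j) % 3 = 2 := by
              intro j
              induction j with
              | zero => left; norm_num
              | succ j ih => rw [pow_succ]; omega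
            exact this _
          have hcomm : x ^ (2 ^ (k + 1)) * m = m * x ^ (2 ^ (k + 1)) := by
            exact mul_inv_eq_iff_eq_mul.mp h2.symm
          rcases h3 with h3 | h3
          · have h4 : 2 ^ (k + 1) = 3 * (2 ^ (k + 1) / 3) + 1 := by omega
            rw [h4, pow_succ, pow_mul, hx, one_pow, one_mul] at hcomm
            exact hcomm
          · have h4 : 2 ^ (k + 1) = 3 * (2 ^ (k + 1) / 3) + 2 := by omega
            rw [h4, pow_add, pow_mul, hx, one_pow, one_mul] at hcomm
            have h5 : x ^ 2 = x⁻¹ := by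
              rw [eq_inv_iff_mul_eq_one, ← pow_succ]; exact hx
            rw [h5] at hcomm
            have hc : Commute x⁻¹ m := hcomm
            exact (Commute.inv_left_iff.mp hc).eq
      have h1 := inverts_of_free hO ht ht1 C hCn hC9 hxC
      -- `[t, x] = x²`
      have h2 : t * x⁻¹ * t = x := by
        have : t * x * t = x⁻¹ := eq_inv_of_mul_eq_one_left (by
          calc t * x * t * x = 1 := h1)
        calc t * x⁻¹ * t = t * (t * x * t) * t := by rw [this]
          _ = (t * t) * x * (t * t) := by group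
          _ = x := by rw [ht]; group
      rw [h2, ← sq, ← pow_mul, mul_comm, pow_mul, hx, one_pow]
    · -- `M` is a 2-group
      push Not at hA
      have hM2 : ∀ m ∈ M, ∃ k : ℕ, m ^ 2 ^ k = 1 := by
        intro m hm
        rcases hO m with ⟨j, h⟩ | h
        · refine ⟨0, ?_⟩
          rw [one_of_no3 M hA hm h]; simp
        · exact h
      have hxM : x ∉ M := fun h => hx1 (hA x h hx)
      -- involutions in `M`
      have htM : t ∈ M → (t * x) ^ 3 = 1 := by
        intro htM
        have a1 : x * t * x⁻¹ ∈ M := hMn.conj_mem t htM x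
        have a2 : x * x * t * (x * x)⁻¹ ∈ M := hMn.conj_mem t htM (x * x)
        have e1 : (t * x) ^ 3 = t * (x * t * x⁻¹) * (x * x * t * (x * x)⁻¹) * x ^ 3 := by
          simp only [pow_succ, pow_zero]; group
        rw [e1, hx, mul_one]
        set m := t * (x * t * x⁻¹) * (x * x * t * (x * x)⁻¹) with hm
        have hmM : m ∈ M := mul_mem (mul_mem htM a1) a2
        have hxm : m * x = x * m := by
          have e2 : x * m * x⁻¹ = (x * t * x⁻¹) * (x * x * t * (x * x)⁻¹) * (x ^ 3 * t * (x ^ 3)⁻¹) := by
            rw [hm]; simp only [pow_succ, pow_zero]; group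
          have e3 : x * m * x⁻¹ = m := by
            rw [e2, hx, hm]
            rw [one_mul, inv_one, mul_one]
            rw [hMc _ (mul_mem a1 a2) t htM]; group
          rw [mul_inv_eq_iff_eq_mul] at e3
          exact e3.symm
        obtain ⟨k, hk⟩ := hM2 m hmM
        rcases hO.comm hxm hk (pow9_of_cube hx) with h | h
        · exact h
        · exact absurd h hx1
      have hQ : derivedSeries (H ⧸ M) n = ⊥ := by
        rw [← map_derivedSeries_eq (QuotientGroup.mk'_surjective M) n, ← hM,
          QuotientGroup.map_mk'_self]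
      have hOQ : Ord (H ⧸ M) := hO.quot M
      have htQ : (QuotientGroup.mk t : H ⧸ M) * QuotientGroup.mk t = 1 := by
        rw [← QuotientGroup.mk_mul, ht, QuotientGroup.mk_one]
      have hxQ : (QuotientGroup.mk x : H ⧸ M) ^ 3 = 1 := by
        rw [← QuotientGroup.mk_pow, hx, QuotientGroup.mk_one]
      have hxQ1 : (QuotientGroup.mk x : H ⧸ M) ≠ 1 := by
        rw [Ne, QuotientGroup.eq_one_iff]; exact hxM
      -- elements `g` with `g³ ∈ M`
      have key : ∀ g : H, g ^ 3 ∈ M → g ^ 3 = 1 ∨ g ∈ M := by
        intro g hg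
        rcases hO g with ⟨j, h⟩ | ⟨k, h⟩
        · left
          obtain ⟨k, hk⟩ := hM2 _ hg
          exact one_of_pow9_two h hk
        · right
          rw [← QuotientGroup.eq_one_iff]
          have h1 : (QuotientGroup.mk g : H ⧸ M) ^ 2 ^ k = 1 := by
            rw [← QuotientGroup.mk_pow, h, QuotientGroup.mk_one]
          have h2 : (QuotientGroup.mk g : H ⧸ M) ^ 3 = 1 := by
            rw [← QuotientGroup.mk_pow, QuotientGroup.eq_one_iff]; exact hg
          exact one_of_coprime h1 h2 (cop2_3 k)
      rcases ih (H ⧸ M) hQ hOQ _ _ htQ hxQ with h | h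
      · rw [← QuotientGroup.mk_mul, ← QuotientGroup.mk_pow, QuotientGroup.eq_one_iff] at h
        left
        rcases key _ h with h1 | h1
        · exact h1
        · exfalso
          rw [← QuotientGroup.eq_one_iff, QuotientGroup.mk_mul] at h1
          have h2 : (QuotientGroup.mk t : H ⧸ M) = (QuotientGroup.mk x)⁻¹ :=
            mul_eq_one_iff_eq_inv.mp h1
          have h3 : (QuotientGroup.mk t : H ⧸ M) = 1 :=
            one_of_sq_cube htQ (by rw [h2]; exact cube_inv hxQ)
          rw [h3] at h2
          exact hxQ1 (inv_eq_one.mp h2.symm)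
      · have h0 : (t * x⁻¹ * t * x) ^ 3 ∈ M := by
          rw [← QuotientGroup.eq_one_iff]; exact h
        rcases key _ h0 with h1 | h1
        · right; exact h1
        · left
          apply htM
          rw [← QuotientGroup.eq_one_iff] at h1 ⊢
          have h2 : (QuotientGroup.mk t : H ⧸ M) * QuotientGroup.mk x =
              QuotientGroup.mk x * QuotientGroup.mk t := comm_of_conj htQ h1
          rcases hOQ.comm' h2 htQ hxQ with h3 | h3
          · exact h3
          · exact absurd h3 hxQ1

end Pool.Agent.N151.LG
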