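import Pool.Agent.N151.LG.Rho

/-!
Case 2: some involution `σ ≠ 1` satisfies `(σ x)³ = 1` for an element `x ≠ 1` of order 3.
-/

universe u

namespace Pool.Agent.N151.LG

open Subgroup LF

section

variable {G : Type*} [Group G]

/-- the involutions `s` with `(s y)³ = 1` for all elements `y` of order 3 -/
def BS (G : Type*) [Group G] : Set G :=
  {s | s * s = 1 ∧ ∀ y : G, y ^ 3 = 1 → y ≠ 1 → (s * y) ^ 3 = 1}

theorem mem_BS (hO : Ord G) (hF : HF G) {s x : G} (hs : s * s = 1) (hs1 : s ≠ 1)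
    (hx : x ^ 3 = 1) (hsx : (s * x) ^ 3 = 1) : s ∈ BS G := by
  refine ⟨hs, ?_⟩
  intro y hy hy1
  rcases hF s y hs hy with h | h
  · exact h
  exfalso
  have h1 : s * (s * y⁻¹ * s * y) * (s * (s * y⁻¹ * s * y)) = 1 := by
    have e1 : s * (s * y⁻¹ * s * y) = y⁻¹ * s * y := by
      calc s * (s * y⁻¹ * s * y) = (s * s) * (y⁻¹ * s * y) := by group
        _ = y⁻¹ * s * y := by rw [hs, one_mul]
    rw [e1]; exact inv_conj hs
  rcases U hO hF hs hx h hsx h1 with h2 | h2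
  · exact hs1 h2
  · have h3 : s * y = y * s := by
      calc s * y = y * (y⁻¹ * s * y) := by group
        _ = y * ((s * s) * (y⁻¹ * s * y)) := by rw [hs, one_mul]
        _ = y * s * (s * y⁻¹ * s * y) := by group
        _ = y * s := by rw [h2, mul_one]
    rcases hO.comm' h3 hs hy with h4 | h4
    · exact hs1 h4
    · exact hy1 h4

theorem conj_cube {g y : G} (hy : y ^ 3 = 1) : (g * y * g⁻¹) ^ 3 = 1 := by
  rw [conj_pow, hy]; simp

theorem conj_ne {g y : G} (hy : y ≠ 1) : g * y * g⁻¹ ≠ 1 := by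
  intro h
  apply hy
  rw [mul_inv_eq_one] at h
  simpa using h

theorem BS_conj {s : G} (h : s ∈ BS G) (g : G) : g * s * g⁻¹ ∈ BS G := by
  refine ⟨inv_conj' h.1, ?_⟩
  intro y hy hy1
  have h1 := h.2 (g⁻¹ * y * g⁻¹⁻¹) (conj_cube hy) (conj_ne hy1)
  have e : g * s * g⁻¹ * y = g * (s * (g⁻¹ * y * g⁻¹⁻¹)) * g⁻¹ := by group
  rw [e]; exact conj_cube h1

/-- the subgroup generated by `BS G` -/
def N (G : Type*) [Group G] : Subgroup G := closure (BS G)

theorem N_normal : (N G).Normal := by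
  refine ⟨fun n hn g => ?_⟩
  unfold N at hn ⊢
  induction hn using closure_induction with
  | mem t ht => exact subset_closure (BS_conj ht g)
  | one => simp [one_mem]
  | mul a b _ _ ha hb =>
    have : g * (a * b) * g⁻¹ = (g * a * g⁻¹) * (g * b * g⁻¹) := by group
    rw [this]; exact mul_mem ha hb
  | inv a _ ha =>
    have : g * a⁻¹ * g⁻¹ = (g * a * g⁻¹)⁻¹ := by group
    rw [this]; exact inv_mem ha

theorem sy_conj {s y : G} (hs : s * s = 1) (hy : y ^ 3 = 1) (h : (s * y) ^ 3 = 1) :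
    s * y = (y * s * y⁻¹)⁻¹ * y * (y * s * y⁻¹) := by
  have h1 : y⁻¹ * y⁻¹ = y := by
    have : y⁻¹ * y⁻¹ = (y ^ 3)⁻¹ * y := by group
    rw [this, hy]; group
  calc s * y = s⁻¹ * (s * y) ^ 3 * (y⁻¹ * y⁻¹) := by rw [h, h1, inv_self hs, mul_one]
    _ = y * s * y * s * y⁻¹ := by simp only [pow_succ, pow_zero]; group
    _ = y * s⁻¹ * y * s * y⁻¹ := by rw [inv_self hs]
    _ = (y * s * y⁻¹)⁻¹ * y * (y * s * y⁻¹) := by group

theorem N1 {n : G} (hn : n ∈ N G) : ∀ y : G, y ^ 3 = 1 → y ≠ 1 → ∃ m : G, n * y = m⁻¹ * y * m := by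
  unfold N at hn
  have key : ∀ s ∈ BS G, ∀ n : G, (∀ y : G, y ^ 3 = 1 → y ≠ 1 → ∃ m : G, n * y = m⁻¹ * y * m) →
      ∀ y : G, y ^ 3 = 1 → y ≠ 1 → ∃ m : G, s * n * y = m⁻¹ * y * m := by
    intro s hs n ih y hy hy1
    obtain ⟨m, hm⟩ := ih y hy hy1
    have h1 : (n * y) ^ 3 = 1 := by
      rw [hm]
      have := conj_cube (g := m⁻¹) hy
      rwa [inv_inv] at this
    have h2 : n * y ≠ 1 := by
      rw [hm]
      have := conj_ne (g := m⁻¹) hy1
      rwa [inv_inv] at this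
    have h3 := sy_conj hs.1 h1 (hs.2 _ h1 h2)
    refine ⟨m * ((n * y) * s * (n * y)⁻¹), ?_⟩
    rw [mul_assoc, h3]
    conv_lhs => rw [hm]
    conv_rhs => rw [hm]
    group
  induction hn using closure_induction_left with
  | one => intro y _ _; exact ⟨1, by group⟩
  | mul_left s hs n _ ih => exact key s hs n ih
  | inv_mul_cancel s hs n _ ih =>
    have h1 : s⁻¹ = s := inv_self hs.1
    rw [h1]; exact key s hs n ih

theorem N2 {n : G} (hn : n ∈ N G) {y : G} (hy : y ^ 3 = 1) (hy1 : y ≠ 1) :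
    (n * y) ^ 3 = 1 ∧ n * y ≠ 1 := by
  obtain ⟨m, hm⟩ := N1 hn y hy hy1
  rw [hm]
  have h1 := conj_cube (g := m⁻¹) hy
  have h2 := conj_ne (g := m⁻¹) hy1
  rw [inv_inv] at h1 h2
  exact ⟨h1, h2⟩

theorem N2' {n : G} (hn : n ∈ N G) {y : G} (hy : y ^ 3 = 1) (hy1 : y ≠ 1) :
    (y * n) ^ 3 = 1 ∧ y * n ≠ 1 := by
  have h1 := N2 hn hy hy1
  refine ⟨cube_comm h1.1, ?_⟩
  intro h
  apply h1.2
  rw [mul_eq_one_iff_eq_inv] at h ⊢
  rw [h, inv_inv]

/-- no element of `N` has order 3 -/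
theorem N_no3 {y : G} (hyN : y ∈ N G) (hy : y ^ 3 = 1) : y = 1 := by
  by_contra hy1
  exact (N2 (inv_mem hyN) hy hy1).2 (inv_mul_cancel y)

/-- a subgroup without elements of order 3 has no elements of order a power of 3 -/
theorem one_of_no3 (S : Subgroup G) (h3 : ∀ y ∈ S, y ^ 3 = 1 → y = 1) {n : G} (hn : n ∈ S) {j : ℕ}
    (h : n ^ 3 ^ j = 1) : n = 1 := by
  induction j with
  | zero => simpa using h
  | succ j ih =>
    rw [pow_succ, pow_mul] at h
    exact ih (h3 _ (pow_mem hn _) h)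

theorem N_two (hO : Ord G) {n : G} (hn : n ∈ N G) : ∃ k : ℕ, n ^ 2 ^ k = 1 := by
  rcases hO n with ⟨j, h⟩ | h
  · refine ⟨0, ?_⟩
    have : n = 1 := one_of_no3 (N G) (fun y hy h => N_no3 hy h) hn h
    rw [this]; simp
  · exact h

theorem N3 {n : G} (hn : n ∈ N G) {y : G} (hy : y ^ 3 = 1) (hy1 : y ≠ 1) :
    n * (y * n * y⁻¹) * (y * y * n * y⁻¹ * y⁻¹) = 1 ∧
    n * (y * n * y⁻¹) = (y * n * y⁻¹) * n ∧ n * (y⁻¹ * n * y) = (y⁻¹ * n * y) * n := by
  have key : ∀ n ∈ N G, ∀ y : G, y ^ 3 = 1 → y ≠ 1 →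
      n * (y * n * y⁻¹) * (y * y * n * y⁻¹ * y⁻¹) = 1 := by
    intro n hn y hy hy1
    have h1 := (N2 hn hy hy1).1
    have : n * (y * n * y⁻¹) * (y * y * n * y⁻¹ * y⁻¹) = (n * y) ^ 3 * (y ^ 3)⁻¹ := by
      simp only [pow_succ, pow_zero]; group
    rw [this, h1, hy]; group
  have key2 : ∀ y : G, y ^ 3 = 1 → y ≠ 1 → n * (y * n * y⁻¹) = (y * n * y⁻¹) * n := by
    intro y hy hy1
    have h1 := key n hn y hy hy1
    have h2 := key n⁻¹ (inv_mem hn) y hy hy1
    have h3 : (y * y * n * y⁻¹ * y⁻¹) * ((y * n * y⁻¹) * n) = 1 := by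
      have : ((y * y * n * y⁻¹ * y⁻¹) * ((y * n * y⁻¹) * n))⁻¹ = 1 := by
        rw [← h2]; group
      rwa [inv_eq_one] at this
    have h4 := mul_eq_one_iff_eq_inv.mp h1
    have h5 := mul_eq_one_iff_inv_eq.mp h3
    rw [h4, h5]
  refine ⟨key n hn y hy hy1, key2 y hy hy1, ?_⟩
  have := key2 y⁻¹ (cube_inv hy) (inv_ne_one.mpr hy1)
  rwa [inv_inv] at this

variable (hex : ∃ y : G, y ^ 3 = 1 ∧ y ≠ 1)

include hex

/-- every element of `N` commutes with its conjugates in `N` -/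
theorem N4 {n r : G} (hn : n ∈ N G) (hr : r ∈ N G) : n * (r * n * r⁻¹) = (r * n * r⁻¹) * n := by
  obtain ⟨y, hy, hy1⟩ := hex
  have h1 := (N3 hn hy hy1).1
  have a1 := N2 hr hy hy1
  have a2 := N2 hr (cube_inv hy) (inv_ne_one.mpr hy1)
  have b1 := (N3 hn a1.1 a1.2).2.1
  have b2 := (N3 hn a2.1 a2.2).2.1
  have e2 : y * y = y⁻¹ := by
    rw [eq_inv_iff_mul_eq_one]
    calc y * y * y = y ^ 3 := by simp only [pow_succ, pow_zero]; group
      _ = 1 := hy
  have e3 : y⁻¹ * y⁻¹ = y := by rw [← mul_inv_rev, e2, inv_inv]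
  have h2 : n = (y * n * y⁻¹)⁻¹ * (y⁻¹ * n * y)⁻¹ * 1 := by
    have h3 : y * y * n * y⁻¹ * y⁻¹ = y⁻¹ * n * y := by
      rw [mul_assoc (y * y * n), e3, e2]
    rw [h3] at h1
    have h4 := (N3 hn hy hy1).2.1
    have h5 : n = ((y * n * y⁻¹) * (y⁻¹ * n * y))⁻¹ := by
      rw [eq_inv_iff_mul_eq_one, ← mul_assoc]; exact h1
    have h6 : (y * n * y⁻¹) * (y⁻¹ * n * y) = (y⁻¹ * n * y) * (y * n * y⁻¹) := by
      have : (y⁻¹ * n * y) = (y * (y * n * y⁻¹) * y⁻¹) := by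
        calc y⁻¹ * n * y = (y * y) * n * (y⁻¹ * y⁻¹) := by rw [e2, e3]
          _ = y * (y * n * y⁻¹) * y⁻¹ := by group
      rw [this]
      exact (N3 ((N_normal (G := G)).conj_mem n hn y) hy hy1).2.1
    rw [h6, mul_inv_rev] at h5
    rw [mul_one]; exact h5
  have c1 : Commute n ((r * y) * n * (r * y)⁻¹) := b1
  have c2 : Commute n ((r * y⁻¹) * n * (r * y⁻¹)⁻¹) := b2
  have e4 : r * n * r⁻¹ = ((r * y) * n * (r * y)⁻¹)⁻¹ * ((r * y⁻¹) * n * (r * y⁻¹)⁻¹)⁻¹ := by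
    conv_lhs => rw [h2]
    group
  rw [e4]
  exact (c1.inv_right.mul_right c2.inv_right)

/-- squares of elements of `N` are central in `N` -/
theorem N6 {n m : G} (hn : n ∈ N G) (hm : m ∈ N G) : (n * n) * m = m * (n * n) := by
  have h1 : BS G ⊆ (centralizer {n * n} : Subgroup G) := by
    intro t ht
    have htN : t ∈ N G := subset_closure ht
    have hti : t⁻¹ = t := inv_self ht.1
    have a1 := N4 hex htN hn
    have a2 := N4 hex hn htN
    rw [hti] at a2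
    rw [SetLike.mem_coe, mem_centralizer_singleton_iff]
    -- `(t n t n⁻¹)² = 1`
    have h2 : (t * (n * t * n⁻¹)) * (t * (n * t * n⁻¹)) = 1 := by
      calc (t * (n * t * n⁻¹)) * (t * (n * t * n⁻¹))
          = (t * (n * t * n⁻¹)) * ((n * t * n⁻¹) * t) := by rw [← a1]
        _ = t * n * (t * t) * n⁻¹ * t := by group
        _ = 1 := by rw [ht.1, mul_one]; rw [mul_assoc t n, mul_inv_cancel, mul_one, ht.1]
    have a3 : Commute n (t * n * t) := a2
    have h3 : (t * n * t) * (t * n * t) * (n⁻¹ * n⁻¹) = 1 := by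
      calc (t * n * t) * (t * n * t) * (n⁻¹ * n⁻¹)
          = (t * n * t) * ((t * n * t) * n⁻¹) * n⁻¹ := by group
        _ = (t * n * t) * (n⁻¹ * (t * n * t)) * n⁻¹ := by rw [(a3.inv_left).eq]
        _ = (t * (n * t * n⁻¹)) * (t * (n * t * n⁻¹)) := by group
        _ = 1 := h2
    have h4 : t * (n * n) * t = n * n := by
      calc t * (n * n) * t = t * n * (t * t) * n * t := by rw [ht.1]; group
        _ = (t * n * t) * (t * n * t) * (n⁻¹ * n⁻¹) * (n * n) := by group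
        _ = n * n := by rw [h3, one_mul]
    calc t * (n * n) = t * (n * n) * (t * t) := by rw [ht.1, mul_one]
      _ = (t * (n * n) * t) * t := by group
      _ = n * n * t := by rw [h4]
  have h2 : N G ≤ centralizer {n * n} := (closure_le _).mpr h1
  exact (mem_centralizer_singleton_iff.mp (h2 hm)).symm

/-- commutators of elements of `N` are central in `N` -/
theorem N7 {n m k : G} (hn : n ∈ N G) (hm : m ∈ N G) (hk : k ∈ N G) :
    Commute (n * m * n⁻¹ * m⁻¹) k := by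
  have h1 : Commute (n * n) m := N6 hex hn hm
  have e : n * m * n⁻¹ * m⁻¹ = (n * m) * (n * m) * (n * n)⁻¹ * (m * m)⁻¹ := by
    have e1 : m⁻¹ * (n * n)⁻¹ = (n * n)⁻¹ * m⁻¹ := (h1.inv_inv).eq.symm
    calc n * m * n⁻¹ * m⁻¹ = (n * m) * (n * m) * (m⁻¹ * (n * n)⁻¹) * m⁻¹ := by group
      _ = (n * m) * (n * m) * ((n * n)⁻¹ * m⁻¹) * m⁻¹ := by rw [e1]
      _ = (n * m) * (n * m) * (n * n)⁻¹ * (m * m)⁻¹ := by group
  rw [e]
  have c1 : Commute ((n * m) * (n * m)) k := N6 hex (mul_mem hn hm) hk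
  have c2 : Commute (n * n) k := N6 hex hn hk
  have c3 : Commute (m * m) k := N6 hex hm hk
  exact (c1.mul_left c2.inv_left).mul_left c3.inv_left

/-- the involutions in the centre of `N` -/
theorem exists_V (hB : ∃ s ∈ BS G, s ≠ 1) : ∃ V : Subgroup G, V.Normal ∧ V ≠ ⊥ ∧
    (∀ a ∈ V, ∀ b ∈ V, a * b = b * a) ∧ (∀ a ∈ V, a * a = 1) ∧
    (∀ a ∈ V, ∀ y : G, y ^ 3 = 1 → y ≠ 1 →
      a * (y * a * y⁻¹) * (y * y * a * y⁻¹ * y⁻¹) = 1) := by
  let V : Subgroup G :=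
    { carrier := {z | z ∈ N G ∧ z * z = 1 ∧ ∀ n ∈ N G, Commute z n}
      one_mem' := ⟨one_mem _, one_mul 1, fun n _ => Commute.one_left n⟩
      mul_mem' := by
        rintro a b ⟨ha, ha2, hac⟩ ⟨hb, hb2, hbc⟩
        refine ⟨mul_mem ha hb, ?_, fun n hn => (hac n hn).mul_left (hbc n hn)⟩
        calc a * b * (a * b) = a * (b * a) * b := by group
          _ = a * (a * b) * b := by rw [(hac b hb).eq]
          _ = (a * a) * (b * b) := by group
          _ = 1 := by rw [ha2, hb2, one_mul]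
      inv_mem' := by
        rintro a ⟨ha, ha2, hac⟩
        rw [inv_self ha2]
        exact ⟨ha, ha2, hac⟩ }
  refine ⟨V, ⟨?_⟩, ?_, ?_, ?_, ?_⟩
  · rintro a ⟨ha, ha2, hac⟩ g
    refine ⟨N_normal.conj_mem a ha g, inv_conj' ha2, ?_⟩
    intro n hn
    have h1 := hac _ (N_normal.conj_mem n hn g⁻¹)
    show g * a * g⁻¹ * n = n * (g * a * g⁻¹)
    calc g * a * g⁻¹ * n = g * (a * (g⁻¹ * n * g⁻¹⁻¹)) * g⁻¹ := by group
      _ = g * ((g⁻¹ * n * g⁻¹⁻¹) * a) * g⁻¹ := by rw [h1.eq]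
      _ = n * (g * a * g⁻¹) := by group
  · intro hV
    obtain ⟨s, hs, hs1⟩ := hB
    have hsN : s ∈ N G := subset_closure hs
    by_cases hc : ∀ n ∈ N G, Commute s n
    · have : s ∈ V := ⟨hsN, hs.1, hc⟩
      rw [hV, mem_bot] at this
      exact hs1 this
    · push Not at hc
      obtain ⟨n, hn, hsn⟩ := hc
      have : s * n * s⁻¹ * n⁻¹ ∈ V := by
        refine ⟨mul_mem (mul_mem (mul_mem hsN hn) (inv_mem hsN)) (inv_mem hn), ?_,
          fun k hk => N7 hex hsN hn hk⟩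
        rw [inv_self hs.1]
        have a1 := N4 hex hsN hn
        calc s * n * s * n⁻¹ * (s * n * s * n⁻¹) = s * (n * s * n⁻¹) * (s * (n * s * n⁻¹)) := by
              group
          _ = s * (n * s * n⁻¹) * ((n * s * n⁻¹) * s) := by rw [← a1]
          _ = s * n * (s * s) * n⁻¹ * s := by group
          _ = 1 := by rw [hs.1, mul_one]; rw [mul_assoc s n, mul_inv_cancel, mul_one, hs.1]
      rw [hV, mem_bot, mul_inv_eq_one, mul_inv_eq_iff_eq_mul] at this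
      exact hsn this
  · rintro a ⟨_, _, hac⟩ b ⟨hb, _, _⟩
    exact hac b hb
  · rintro a ⟨_, ha2, _⟩; exact ha2
  · rintro a ⟨ha, _, _⟩ y hy hy1
    exact (N3 ha hy hy1).1

/-- **Case 2**: the group has the property `HP` -/
theorem hp_two (hO : Ord G) (hB : ∃ s ∈ BS G, s ≠ 1) : H242.P3.HP G := by
  obtain ⟨V, hVn, hV1, hVc, hV2, hV3⟩ := exists_V hex hB
  obtain ⟨A, _, ρ, e, he, heV, hes, hadd, hact⟩ := exists_rho V hVc
  have e0 : e 0 = 1 := by
    have := hadd 0 0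
    rw [add_zero] at this
    exact (mul_eq_left.mp this.symm)
  have h2 : (2 : AddMonoid.End A) = 0 := by
    have : (2 : AddMonoid.End A) = 1 + 1 := by norm_num
    rw [this]
    apply AddMonoidHom.ext
    intro a
    apply he
    show e (a + a) = e 0
    rw [hadd, hV2 _ (heV a), e0]
  have h1 : (1 : AddMonoid.End A) ≠ 0 := by
    intro h
    apply hV1
    rw [eq_bot_iff]
    intro v hv
    obtain ⟨a, ha⟩ := hes v hv
    have h3 : a = 0 := by
      have := congrArg (fun f : AddMonoid.End A => f a) h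
      exact this
    rw [mem_bot, ← ha, h3, e0]
  refine hp_of h2 ρ ?_ hO h1
  intro y hy hy1
  apply AddMonoidHom.ext
  intro a
  apply he
  show e (a + ρ y a + ρ y (ρ y a)) = e 0
  rw [hadd, hadd, hact, hact, hact, e0]
  have := hV3 _ (heV a) y hy hy1
  rw [← this]; group

end

end Pool.Agent.N151.LG
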