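import Pool.Agent.N151.LG.Two

/-!
Local finiteness: extensions, and Case 2.
-/

universe u

namespace Pool.Agent.N151.LG

open Subgroup LF

section ext

variable {G : Type u} [Group G]

theorem fg_map {G' : Type*} [Group G'] {H : Subgroup G} (h : H.FG) (f : G →* G') :
    (H.map f).FG := by
  classical
  obtain ⟨S, hS⟩ := h
  refine ⟨S.image f, ?_⟩
  rw [Finset.coe_image, ← MonoidHom.map_closure, hS]

/-- finitely generated subgroups of `H` are finite -/
def LFin (H : Subgroup G) : Prop := ∀ F : Subgroup G, F ≤ H → F.FG → Finite F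

theorem LFin.of_index {K F : Subgroup G} (hK : LFin K) (hF : F.FG)
    (hi : (K.subgroupOf F).index ≠ 0) : Finite F := by
  have hfg : Group.FG F := (Group.fg_iff_subgroup_fg F).mpr hF
  have : (K.subgroupOf F).FiniteIndex := ⟨hi⟩
  have h1 : Group.FG (K.subgroupOf F) := Subgroup.fg_of_index_ne_zero _
  have h2 : (K.subgroupOf F).FG := (Group.fg_iff_subgroup_fg _).mp h1
  have h3 : ((K.subgroupOf F).map F.subtype).FG := fg_map h2 _
  have h4 : Finite ((K.subgroupOf F).map F.subtype) := by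
    apply hK _ _ h3
    intro g hg
    obtain ⟨f, hf, rfl⟩ := Subgroup.mem_map.mp hg
    exact hf
  have h5 : Finite (K.subgroupOf F) := by
    have e := (K.subgroupOf F).equivMapOfInjective F.subtype F.subtype_injective
    exact Finite.of_equiv _ e.symm.toEquiv
  exact H15.Struct.finite_of_index _ hi h5

/-- every finitely generated group with the identity `x ^ m = 1` is finite -/
def FinExp (m : ℕ) : Prop :=
  ∀ (Q : Type u) [Group Q], Group.FG Q → (∀ q : Q, q ^ m = 1) → Finite Q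

/-- extension by a group of exponent `m` -/
theorem LFin.expm {K H : Subgroup G} [hKn : K.Normal] (hK : LFin K) {m : ℕ}
    (hm : FinExp.{u} m) (h : ∀ g ∈ H, g ^ m ∈ K) : LFin H := by
  intro F hFH hF
  have hfg : Group.FG F := (Group.fg_iff_subgroup_fg F).mpr hF
  have h1 : Finite (F ⧸ K.subgroupOf F) := by
    have hfgQ : Group.FG (F ⧸ K.subgroupOf F) := QuotientGroup.fg _
    refine hm _ hfgQ ?_
    intro q
    obtain ⟨g, rfl⟩ := QuotientGroup.mk_surjective q
    rw [← QuotientGroup.mk_pow, QuotientGroup.eq_one_iff, mem_subgroupOf]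
    exact h _ (hFH g.2)
  have hfi : (K.subgroupOf F).FiniteIndex := Subgroup.finiteIndex_of_finite_quotient
  exact hK.of_index hF hfi.index_ne_zero

/-- extension by a group whose finitely generated subgroups are finite -/
theorem LFin.quot' {K H : Subgroup G} [hKn : K.Normal] (hK : LFin K)
    (h : ∀ F : Subgroup G, F ≤ H → F.FG → Finite (F.map (QuotientGroup.mk' K))) : LFin H := by
  intro F hFH hF
  have h1 : Finite (F.map (QuotientGroup.mk' K)) := h F hFH hF
  have h2 : Finite (F ⧸ K.subgroupOf F) := by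
    let f : F →* F.map (QuotientGroup.mk' K) := (QuotientGroup.mk' K).subgroupMap F
    have hk : f.ker = K.subgroupOf F := by
      ext g
      rw [MonoidHom.mem_ker, mem_subgroupOf, ← QuotientGroup.eq_one_iff, Subtype.ext_iff]
      rfl
    have e := QuotientGroup.quotientKerEquivRange f
    have h3 : Finite f.range := inferInstance
    rw [← hk]
    exact Finite.of_equiv _ e.symm.toEquiv
  have hfi : (K.subgroupOf F).FiniteIndex := Subgroup.finiteIndex_of_finite_quotient
  exact hK.of_index hF hfi.index_ne_zero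

/-- extension by a locally finite group -/
theorem LFin.quot {K : Subgroup G} [hKn : K.Normal] (hK : LFin K)
    (h : LFin (⊤ : Subgroup (G ⧸ K))) : LFin (⊤ : Subgroup G) :=
  hK.quot' fun _ _ hF => h _ le_top (fg_map hF _)

/-- extension of index 2 -/
theorem LFin.two {D : Subgroup G} (hD : LFin D) (h : ∀ g h, g ∉ D → h ∉ D → g⁻¹ * h ∈ D) :
    LFin (⊤ : Subgroup G) := by
  intro F _ hF
  have h1 : Finite (F ⧸ D.subgroupOf F) := by
    by_cases hc : ∃ g : F, g.1 ∉ D
    · obtain ⟨g, hg⟩ := hc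
      refine Finite.of_surjective (fun b : Bool => if b then
        (QuotientGroup.mk (1 : F) : F ⧸ D.subgroupOf F) else QuotientGroup.mk g) ?_
      intro q
      obtain ⟨f, rfl⟩ := QuotientGroup.mk_surjective q
      by_cases hf : f.1 ∈ D
      · refine ⟨true, ?_⟩
        show (QuotientGroup.mk (1 : F) : F ⧸ D.subgroupOf F) = _
        rw [QuotientGroup.eq, inv_one, one_mul, mem_subgroupOf]
        exact hf
      · refine ⟨false, ?_⟩
        show (QuotientGroup.mk g : F ⧸ D.subgroupOf F) = _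
        rw [QuotientGroup.eq, mem_subgroupOf]
        exact h _ _ hg hf
    · push Not at hc
      refine Finite.of_surjective (fun _ : Unit =>
        (QuotientGroup.mk (1 : F) : F ⧸ D.subgroupOf F)) ?_
      intro q
      obtain ⟨f, rfl⟩ := QuotientGroup.mk_surjective q
      refine ⟨(), ?_⟩
      rw [QuotientGroup.eq, inv_one, one_mul, mem_subgroupOf]
      exact hc f
  have hfi : (D.subgroupOf F).FiniteIndex := Subgroup.finiteIndex_of_finite_quotient
  exact hD.of_index hF hfi.index_ne_zero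

theorem closure_cube_normal : (closure {t : G | t ^ 3 = 1}).Normal := by
  refine ⟨fun n hn g => ?_⟩
  induction hn using closure_induction with
  | mem t ht =>
    refine subset_closure ?_
    have ht' : t ^ 3 = 1 := ht
    show (g * t * g⁻¹) ^ 3 = 1
    rw [conj_pow, ht']; simp
  | one => simp [one_mem]
  | mul a b _ _ ha hb =>
    have : g * (a * b) * g⁻¹ = (g * a * g⁻¹) * (g * b * g⁻¹) := by group
    rw [this]; exact mul_mem ha hb
  | inv a _ ha =>
    have : g * a⁻¹ * g⁻¹ = (g * a * g⁻¹)⁻¹ := by group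
    rw [this]; exact inv_mem ha

theorem Ord.fin (hO : Ord G) (g : G) : IsOfFinOrder g := by
  rcases hO g with ⟨k, h⟩ | ⟨k, h⟩
  · exact isOfFinOrder_iff_pow_eq_one.mpr ⟨3 ^ k, by positivity, h⟩
  · exact isOfFinOrder_iff_pow_eq_one.mpr ⟨2 ^ k, by positivity, h⟩

theorem Ord.quot (hO : Ord G) (K : Subgroup G) [K.Normal] : Ord (G ⧸ K) := by
  intro q
  obtain ⟨g, rfl⟩ := QuotientGroup.mk_surjective q
  rcases hO g with ⟨k, h⟩ | ⟨k, h⟩
  · left; exact ⟨k, by rw [← QuotientGroup.mk_pow, h, QuotientGroup.mk_one]⟩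
  · right; exact ⟨k, by rw [← QuotientGroup.mk_pow, h, QuotientGroup.mk_one]⟩

theorem zpow_cases {a : G} (ha : a ^ 3 = 1) (k : ℤ) : a ^ k = 1 ∨ a ^ k = a ∨ a ^ k = a⁻¹ := by
  have h1 : a ^ k = a ^ (k % 3) := by
    conv_lhs => rw [← Int.mul_ediv_add_emod k 3]
    rw [zpow_add, zpow_mul]
    have : a ^ (3 : ℤ) = 1 := by
      have : a ^ (3 : ℤ) = a ^ (3 : ℕ) := by norm_cast
      rw [this, ha]
    rw [this, one_zpow, one_mul]
  have h2 : k % 3 = 0 ∨ k % 3 = 1 ∨ k % 3 = 2 := by omega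
  rcases h2 with h | h | h
  · left; rw [h1, h, zpow_zero]
  · right; left; rw [h1, h, zpow_one]
  · right; right
    rw [h1, h, eq_inv_iff_mul_eq_one]
    have : a ^ (2 : ℤ) * a = a ^ (3 : ℕ) := by
      rw [pow_succ]; norm_cast
    rw [this, ha]

/-- the 3-elements have order a divisor of `3 m` -/
def Bd (G : Type*) [Group G] (m : ℕ) : Prop := ∀ g : G, (∃ j, g ^ 3 ^ j = 1) → g ^ (3 * m) = 1

theorem lf_T (hO : Ord G) (hex : ∃ y : G, y ^ 3 = 1 ∧ y ≠ 1) (hB : ∃ s ∈ BS G, s ≠ 1) :
    LFin (closure {t : G | t ^ 3 = 1}) := by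
  have hP := hp_two hex hO hB
  exact fun F hFT hF => H242.P3.finite_closure hP F hF hFT fun g _ => hO.fin g

/-- **structure of the group in Case 2** -/
theorem two_struct (hO : Ord G) (hex : ∃ y : G, y ^ 3 = 1 ∧ y ≠ 1) (hB : ∃ s ∈ BS G, s ≠ 1) :
    ∃ S D : Subgroup G, S.Normal ∧ S ≤ closure {t : G | t ^ 3 = 1} ∧
      (∀ s ∈ S, ∃ k : ℕ, s ^ 2 ^ k = 1) ∧ (∀ g ∈ D, (∃ k : ℕ, g ^ 2 ^ k = 1) → g ∈ S) ∧
      (∀ g ∈ D, ∀ x : G, x ^ 3 = 1 → g * x * g⁻¹ * x⁻¹ ∈ S) ∧
      (∀ g h, g ∉ D → h ∉ D → g⁻¹ * h ∈ D) := by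
  have hP := hp_two hex hO hB
  obtain ⟨S, a, ha, hST, hcov, hcube, hconj⟩ := H242.P3.structure_thm hP
  set T := closure {t : G | t ^ 3 = 1} with hT
  have hTn : T.Normal := closure_cube_normal
  obtain ⟨σ, hσ, hσ1⟩ := hB
  have hσT : ∀ y : G, y ^ 3 = 1 → y ≠ 1 → σ ∈ T := by
    intro y hy hy1
    have h1 : σ * y ∈ T := subset_closure (hσ.2 y hy hy1)
    have h2 : y ∈ T := subset_closure hy
    have : σ = (σ * y) * y⁻¹ := by group
    rw [this]; exact mul_mem h1 (inv_mem h2)
  -- `S` has no element of order 3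
  have S1 : ∀ y ∈ S, y ^ 3 = 1 → y = 1 := by
    intro y hyS hy
    by_contra hy1
    have h1 := hσ.2 y hy hy1
    have h2 := (hconj σ (hσT y hy hy1) y hyS).2
    rw [inv_self hσ.1] at h2
    have h3 : (σ * y⁻¹ * σ * y) ^ 3 = 1 := by
      have h4 : Commute (σ * y⁻¹ * σ) y := by
        have := h2.inv_right
        have e : (σ * y * σ)⁻¹ = σ * y⁻¹ * σ := by
          simp only [mul_inv_rev, inv_self hσ.1]; group
        rw [e] at this
        exact this.symm
      rw [h4.mul_pow, hy, mul_one]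
      have h5 := conj_cube (g := σ) (cube_inv hy)
      rwa [inv_self hσ.1] at h5
    rcases hO.comm' (ab_comm hσ.1 hy h1 h3) hσ.1 hy with h | h
    · exact hσ1 h
    · exact hy1 h
  have haS : a ∉ S := by
    intro h
    obtain ⟨y, hy, hy1⟩ := hex
    have h1 : y ∈ T := subset_closure hy
    obtain ⟨k, hk⟩ := hcov y h1
    apply hy1
    apply S1 y _ hy
    have : y = (a ^ k)⁻¹ * (a ^ k * y) := by group
    rw [this]
    exact mul_mem (inv_mem (zpow_mem h k)) hk
  have S2 : ∀ s ∈ S, ∃ k : ℕ, s ^ 2 ^ k = 1 := by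
    intro s hs
    rcases hO s with ⟨j, h⟩ | h
    · refine ⟨0, ?_⟩
      rw [one_of_no3 S S1 hs h]; simp
    · exact h
  have hSn : S.Normal := by
    refine ⟨fun s hs g => ?_⟩
    by_contra hg
    have h1 := hcube _ (hTn.conj_mem s (hST hs) g) hg
    obtain ⟨k, hk⟩ := S2 s hs
    have h2 : s ^ 3 = 1 := by
      rw [conj_pow, mul_inv_eq_one] at h1
      simpa using h1
    have h3 := one_of_coprime hk h2 (cop2_3 k)
    apply hg
    rw [h3]; simp [one_mem]
  have hOQ : Ord (G ⧸ S) := hO.quot S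
  have haQ : (QuotientGroup.mk a : G ⧸ S) ≠ 1 := by
    rw [Ne, QuotientGroup.eq_one_iff]; exact haS
  have haQ3 : (QuotientGroup.mk a : G ⧸ S) ^ 3 = 1 := by
    rw [← QuotientGroup.mk_pow, ha, QuotientGroup.mk_one]
  let D : Subgroup G := (centralizer {(QuotientGroup.mk a : G ⧸ S)}).comap (QuotientGroup.mk' S)
  have hDmem : ∀ g : G, g ∈ D ↔
      (QuotientGroup.mk g : G ⧸ S) * QuotientGroup.mk a = QuotientGroup.mk a * QuotientGroup.mk g := by
    intro g
    show (QuotientGroup.mk' S g) ∈ centralizer {(QuotientGroup.mk a : G ⧸ S)} ↔ _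
    rw [mem_centralizer_singleton_iff]
    rfl
  refine ⟨S, D, hSn, hST, S2, ?_, ?_, ?_⟩
  · rintro g hg ⟨k, h⟩
    have h1 := (hDmem g).mp hg
    have h2 : (QuotientGroup.mk g : G ⧸ S) ^ 2 ^ k = 1 := by
      rw [← QuotientGroup.mk_pow, h, QuotientGroup.mk_one]
    rcases hOQ.comm h1 h2 (pow9_of_cube haQ3) with h3 | h3
    · rwa [QuotientGroup.eq_one_iff] at h3
    · exact absurd h3 haQ
  · intro g hg x hx
    have h1 : Commute (QuotientGroup.mk g : G ⧸ S) (QuotientGroup.mk a) := (hDmem g).mp hg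
    obtain ⟨k, hk⟩ := hcov x (subset_closure hx)
    have h2 : (QuotientGroup.mk x : G ⧸ S) = (QuotientGroup.mk a) ^ (-k) := by
      rw [← QuotientGroup.mk_zpow, eq_comm, QuotientGroup.eq, zpow_neg, inv_inv]
      exact hk
    rw [← QuotientGroup.eq_one_iff, QuotientGroup.mk_mul, QuotientGroup.mk_mul,
      QuotientGroup.mk_mul, QuotientGroup.mk_inv, QuotientGroup.mk_inv, h2,
      (h1.zpow_right (-k)).eq, mul_inv_cancel_right, mul_inv_cancel]
  have hcase : ∀ g : G, g ∉ D → (QuotientGroup.mk g : G ⧸ S) * QuotientGroup.mk a *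
      (QuotientGroup.mk g)⁻¹ = (QuotientGroup.mk a)⁻¹ := by
    intro g hg
    have haT : a ∈ T := subset_closure ha
    obtain ⟨k, hk⟩ := hcov _ (hTn.conj_mem a haT g)
    have h1 : (QuotientGroup.mk g : G ⧸ S) * QuotientGroup.mk a * (QuotientGroup.mk g)⁻¹ =
        QuotientGroup.mk ((a ^ k)⁻¹) := by
      rw [← QuotientGroup.mk_mul, ← QuotientGroup.mk_inv, ← QuotientGroup.mk_mul]
      rw [eq_comm, QuotientGroup.eq, inv_inv]
      exact hk
    rcases zpow_cases ha k with h2 | h2 | h2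
    · rw [h2, inv_one, QuotientGroup.mk_one, mul_inv_eq_one] at h1
      exact absurd (mul_eq_left.mp h1) haQ
    · rw [h1, h2, QuotientGroup.mk_inv]
    · rw [h2, inv_inv, mul_inv_eq_iff_eq_mul] at h1
      exact absurd ((hDmem g).mpr h1) hg
  intro g h hg hh
  rw [hDmem, QuotientGroup.mk_mul, QuotientGroup.mk_inv]
  have h1 := hcase g hg
  have h2 := hcase h hh
  set α : G ⧸ S := QuotientGroup.mk a
  set γ : G ⧸ S := QuotientGroup.mk g
  set η : G ⧸ S := QuotientGroup.mk h
  have h3 : α = γ⁻¹ * α⁻¹ * γ := by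
    rw [← h1]; group
  have h4 : η * α = α⁻¹ * η := by
    rw [← h2]; group
  calc γ⁻¹ * η * α = γ⁻¹ * (η * α) := by group
    _ = (γ⁻¹ * α⁻¹ * γ) * (γ⁻¹ * η) := by rw [h4]; group
    _ = α * (γ⁻¹ * η) := by rw [← h3]

/-- **Case 2**, bounded orders of the 3-elements -/
theorem lf_two (hO : Ord G) {m : ℕ} (hb : Bd G m) (hm : FinExp.{u} m)
    (hex : ∃ y : G, y ^ 3 = 1 ∧ y ≠ 1) (hB : ∃ s ∈ BS G, s ≠ 1) : LFin (⊤ : Subgroup G) := by
  obtain ⟨S, D, hSn, hST, S2, hD2, hDc, hDi⟩ := two_struct hO hex hB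
  have hTn : (closure {t : G | t ^ 3 = 1}).Normal := closure_cube_normal
  have hDLF : LFin D := by
    refine LFin.expm (lf_T hO hex hB) hm ?_
    intro g hg
    rcases hO g with h | h
    · refine subset_closure ?_
      show (g ^ m) ^ 3 = 1
      rw [← pow_mul, mul_comm]; exact hb g h
    · exact pow_mem (hST (hD2 g hg h)) m
  exact LFin.two hDLF hDi

/-- **Case 2**, the centralizer of an element of order 3 is locally finite -/
theorem lf_two_c (hO : Ord G) {x : G} (hx : x ^ 3 = 1) (hx1 : x ≠ 1)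
    (hC : LFin (centralizer {x} : Subgroup G)) (hB : ∃ s ∈ BS G, s ≠ 1) :
    LFin (⊤ : Subgroup G) := by
  have hex : ∃ y : G, y ^ 3 = 1 ∧ y ≠ 1 := ⟨x, hx, hx1⟩
  obtain ⟨S, D, hSn, hST, S2, hD2, hDc, hDi⟩ := two_struct hO hex hB
  have hT := lf_T hO hex hB
  have hS : LFin S := fun F hF => hT F (hF.trans hST)
  -- `x` acts freely on `S`
  have hfree : ∀ s ∈ S, s * x = x * s → s = 1 := by
    intro s hs h
    obtain ⟨k, hk⟩ := S2 s hs
    rcases hO.comm h hk (pow9_of_cube hx) with h1 | h1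
    · exact h1
    · exact absurd h1 hx1
  -- `s = m x m⁻¹ x⁻¹` is solvable
  have hsolv : ∀ s ∈ S, ∃ m ∈ S, m * x * m⁻¹ * x⁻¹ = s := by
    intro s hs
    classical
    set F : Subgroup G := closure {s, x * s * x⁻¹, x⁻¹ * s * x} with hFd
    have hFS : F ≤ S := by
      rw [hFd, closure_le]
      rintro g (rfl | rfl | rfl)
      · exact hs
      · exact hSn.conj_mem s hs x
      · have := hSn.conj_mem s hs x⁻¹
        rwa [inv_inv] at this
    have hFfg : F.FG := ⟨{s, x * s * x⁻¹, x⁻¹ * s * x}, by simp [hFd]⟩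
    have hFfin : Finite F := hS F hFS hFfg
    have hFx : ∀ g ∈ F, x * g * x⁻¹ ∈ F := by
      intro g hg
      rw [hFd] at hg
      induction hg using closure_induction with
      | mem g hg =>
        rcases hg with rfl | rfl | rfl
        · exact subset_closure (by simp)
        · have e : x * (x * s * x⁻¹) * x⁻¹ = x⁻¹ * s * x := by
            have h1 : x * x = x⁻¹ := by
              rw [eq_inv_iff_mul_eq_one, ← pow_three']; exact hx
            have h2 : x⁻¹ * x⁻¹ = x := by rw [← mul_inv_rev, h1, inv_inv]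
            calc x * (x * s * x⁻¹) * x⁻¹ = (x * x) * s * (x⁻¹ * x⁻¹) := by group
              _ = x⁻¹ * s * x := by rw [h1, h2]
          rw [e]; exact subset_closure (by simp)
        · have e : x * (x⁻¹ * s * x) * x⁻¹ = s := by group
          rw [e]; exact subset_closure (by simp)
      | one => simp [one_mem]
      | mul a b _ _ ha hb =>
        have : x * (a * b) * x⁻¹ = (x * a * x⁻¹) * (x * b * x⁻¹) := by group
        rw [this]; exact mul_mem ha hb
      | inv a _ ha =>
        have : x * a⁻¹ * x⁻¹ = (x * a * x⁻¹)⁻¹ := by group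
        rw [this]; exact inv_mem ha
    let φ : F → F := fun g => ⟨g.1 * (x * g.1⁻¹ * x⁻¹), mul_mem g.2 (hFx _ (inv_mem g.2))⟩
    have hinj : Function.Injective φ := by
      intro g h hgh
      have h1 : g.1 * (x * g.1⁻¹ * x⁻¹) = h.1 * (x * h.1⁻¹ * x⁻¹) := congrArg Subtype.val hgh
      have h2 : (h.1⁻¹ * g.1) * x = x * (h.1⁻¹ * g.1) := by
        calc (h.1⁻¹ * g.1) * x = h.1⁻¹ * (g.1 * (x * g.1⁻¹ * x⁻¹)) * x * g.1 := by group
          _ = h.1⁻¹ * (h.1 * (x * h.1⁻¹ * x⁻¹)) * x * g.1 := by rw [h1]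
          _ = x * (h.1⁻¹ * g.1) := by group
      have h3 := hfree _ (mul_mem (inv_mem (hFS h.2)) (hFS g.2)) h2
      apply Subtype.ext
      exact (inv_mul_eq_one.mp h3).symm
    obtain ⟨m, hm⟩ := Finite.surjective_of_injective hinj ⟨s, subset_closure (by simp)⟩
    refine ⟨m.1, hFS m.2, ?_⟩
    have h1 : m.1 * (x * m.1⁻¹ * x⁻¹) = s := congrArg Subtype.val hm
    rw [← h1]; group
  have hcomp : ∀ d ∈ D, ∃ c ∈ (centralizer {x} : Subgroup G),
      (QuotientGroup.mk' S) c = (QuotientGroup.mk' S) d := by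
    intro d hd
    obtain ⟨m, hm, hms⟩ := hsolv _ (hDc d hd x hx)
    refine ⟨m⁻¹ * d, ?_, ?_⟩
    · rw [mem_centralizer_singleton_iff]
      have h1 : m * x * m⁻¹ = d * x * d⁻¹ := mul_right_cancel hms
      calc m⁻¹ * d * x = m⁻¹ * (d * x * d⁻¹) * d := by group
        _ = m⁻¹ * (m * x * m⁻¹) * d := by rw [h1]
        _ = x * (m⁻¹ * d) := by group
    · rw [map_mul]
      have : (QuotientGroup.mk' S) m⁻¹ = 1 := by
        rw [QuotientGroup.mk'_apply, QuotientGroup.eq_one_iff]; exact inv_mem hm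
      rw [this, one_mul]
  choose! c hc1 hc2 using hcomp
  have hDLF : LFin D := by
    refine hS.quot' ?_
    rintro F hFD ⟨A, hA⟩
    classical
    have h1 : (closure ((A.image c : Finset G) : Set G)) ≤ centralizer {x} := by
      rw [closure_le]
      intro g hg
      rw [Finset.coe_image] at hg
      obtain ⟨f, hf, rfl⟩ := hg
      exact hc1 f (hFD (hA ▸ subset_closure hf))
    have h2 : Finite (closure ((A.image c : Finset G) : Set G)) := hC _ h1 ⟨_, rfl⟩
    have h3 : F.map (QuotientGroup.mk' S) =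
        (closure ((A.image c : Finset G) : Set G)).map (QuotientGroup.mk' S) := by
      rw [← hA, MonoidHom.map_closure, MonoidHom.map_closure, Finset.coe_image, ← Set.image_comp]
      congr 1
      apply Set.image_congr
      intro f hf
      exact (hc2 f (hFD (hA ▸ subset_closure hf))).symm
    rw [h3]
    exact Finite.of_surjective _ (MonoidHom.subgroupMap_surjective (QuotientGroup.mk' S)
      (closure ((A.image c : Finset G) : Set G)))
  exact LFin.two hDLF hDi

end ext

end Pool.Agent.N151.LG
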